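import Pool.Agent.Helper1.SR.FinG
import Pool.Agent.Helper1.SR.Form

set_option autoImplicit false

/-!
# SB-GB-07: the kernel of `Ghat D → Gal(E/K)`

`x.g = 1`: `x.M` is a scalar matrix `c • 1` with `c ^ d = 1` (`ghat_scalar` with `y = 1`).
`x * y` with `x.g = y.g = 1` is the product of scalar matrices, commutative.
`x ^ d` has matrix `c ^ d • 1 = 1`.
-/

namespace Pool.Agent.Helper1.SG

open Pool.Agent.Helper1.SR

variable {K Om : Type} [Field K] [Field Om] [Algebra K Om] {A : Type} [Ring A] [Algebra K A]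

private theorem gker_scalar [IsAzumaya K A] (D : Datum K Om A) (x : Ghat D) (hx : x.g = 1) :
    ∃ c : D.E, c ^ D.d = 1 ∧ x.M = c • (1 : Matrix (Fin D.d) (Fin D.d) D.E) := by
  obtain ⟨c, hc1, hc⟩ := ghat_scalar D x 1 (by rw [hx, Ghat.one_g])
  rw [Ghat.one_M] at hc
  exact ⟨c, hc1, hc⟩

theorem ghat_ker_comm [IsAzumaya K A] (D : Datum K Om A) (x y : Ghat D) (hx : x.g = 1)
    (hy : y.g = 1) : x * y = y * x := by
  obtain ⟨c, _, hc⟩ := gker_scalar D x hx
  obtain ⟨e, _, he⟩ := gker_scalar D y hy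
  refine Ghat.ext' ?_ ?_
  · rw [Ghat.mul_M, Ghat.mul_M, hx, hy, mapG_id, mapG_id, hc, he, smul_mul_assoc, one_mul,
      smul_mul_assoc, one_mul, smul_smul, smul_smul, mul_comm]
  · rw [Ghat.mul_g, Ghat.mul_g, hx, hy]

theorem ghat_ker_pow [IsAzumaya K A] (D : Datum K Om A) (x : Ghat D) (hx : x.g = 1) :
    x ^ D.d = 1 := by
  obtain ⟨c, hc1, hc⟩ := gker_scalar D x hx
  have h : ∀ n : ℕ, (x ^ n).g = 1 ∧
      (x ^ n).M = (c ^ n) • (1 : Matrix (Fin D.d) (Fin D.d) D.E) := by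
    intro n
    induction n with
    | zero => exact ⟨by rw [pow_zero, Ghat.one_g], by rw [pow_zero, pow_zero, Ghat.one_M, one_smul]⟩
    | succ n ih =>
      refine ⟨by rw [pow_succ, Ghat.mul_g, ih.1, hx, one_mul], ?_⟩
      rw [pow_succ, Ghat.mul_M, ih.1, mapG_id, ih.2, hc, smul_mul_assoc, one_mul, smul_smul, pow_succ]
  refine Ghat.ext' ?_ ?_
  · rw [(h D.d).2, hc1, one_smul, Ghat.one_M]
  · rw [(h D.d).1, Ghat.one_g]

end Pool.Agent.Helper1.SG
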