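import Pool.Agent.Helper79.SG.TR
import Pool.Agent.Helper1.SG.GKer

set_option autoImplicit false

/-!
# SB-GB-08: no lift implies no lift at some prime

PROOF.  If for every prime `ℓ ∣ d` there were `H, θ` as in the negation, then `transfer` with
`X = Ghat D` (`ghat_finite`), `pr = Ghat.pr D` (kernel: `ghat_ker_comm`, `ghat_ker_pow`; surjective:
`Ghat.pr_surjective`), `t = h` would give a lift.
-/

namespace Pool.Agent.Helper1.SG

open Pool.Agent.Helper1.SR Pool.Agent.SB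

theorem exists_bad_prime {K Om A : Type} [Field K] [Field Om] [Algebra K Om] [Ring A]
    [Algebra K A] [IsAzumaya K A] (D : Datum K Om A) {G : Type} [Group G] [TopologicalSpace G]
    [IsTopologicalGroup G] [CompactSpace G] (h : G →* (D.E ≃ₐ[K] D.E))
    (hh : IsOpen (h.ker : Set G))
    (hno : ¬ ∃ H : G →* Ghat D, IsOpen (H.ker : Set G) ∧ ∀ γ, (H γ).g = h γ) :
    ∃ ℓ : ℕ, ℓ.Prime ∧ ℓ ∣ D.d ∧ ∀ (H : Subgroup G) (θ : H →* Ghat D), ¬ ℓ ∣ H.index →
      IsOpen (H : Set G) →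
      (∃ N : Subgroup G, IsOpen (N : Set G) ∧ ∀ γ : H, (γ : G) ∈ N → θ γ = 1) →
      ¬ ∀ γ : H, (θ γ).g = h γ := by
  by_contra hcon
  apply hno
  have hfin : Finite (Ghat D) := ghat_finite D
  obtain ⟨θ, h1, h2⟩ := transfer (Ghat.pr D)
    (fun a ha b hb => ghat_ker_comm D a b ha hb) D.d (Nat.pos_of_ne_zero D.hd)
    (fun a ha => ghat_ker_pow D a ha) h hh
    (fun g => MonoidHom.mem_range.2 (Ghat.pr_surjective D (h g)))
    (fun ℓ hℓ hd => by
      by_contra hc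
      apply hcon
      refine ⟨ℓ, hℓ, hd, fun H θ h1 h2 h3 h4 => hc ⟨H, θ, h1, h2, h3, h4⟩⟩)
  exact ⟨θ, h1, h2⟩

end Pool.Agent.Helper1.SG
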