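import Pool.Agent.Helper1.SG.Rel
import Pool.Agent.Helper1.SR.FinG

set_option autoImplicit false

/-!
# SB-GB-13: lifts of the limit pair give lifts of the sections

PROOF.  `M1` = a finite extension of `K` containing `D.E` and the `ℓ ^ N`-th roots of unity (`D.E ⊔ K(ζ)`, `ζ` a primitive
`ℓ ^ N`-th root of unity of `Ω`).  Take an index `i` with `NoLift D i`, `M1 ≤ i.M ≤ i.E`, `i.σ' = σ`, `i.τ' = τ` on `M1` (`conv_ev`),
`¬ i.p ∣ ℓ ^ N`, `¬ i.p ∣ Nat.card (Ghat D)`, `¬ i.p ∣ Nat.card (D.E ≃ₐ[K] D.E)` (`avoid_ev`; `ghat_finite`; all of them hold for almost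
all `i`, and an ultrafilter intersection is nonempty).  For `ζ ^ (ℓ ^ N) = 1`: `ζ` is in `kbar` and in `M1`, so by `frob_root`
`σ ζ = i.σ' ζ = ζ ^ i.q`; so `hq` gives `a * b * a⁻¹ = b ^ i.q`.  `i.tame.exist` with `Q = Ghat D`: `θ : F.fixingSubgroup →* Ghat D` with open
kernel, `θ i.σ = a`, `θ i.τ = b`.  Let `r : F.fixingSubgroup →* Gal(D.E/K)` be the restriction of `i.sF i.hF` to `D.E`
(`exists_res`, `D.E` is Galois so normal over `K`; open kernel: `res_open` and `sF_cont`).  `(Ghat.pr D).comp θ` has open kernel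
(it contains `θ.ker`: `Subgroup.isOpen_mono`), and at `i.σ`: `a.g`, with `a.g x = σ x = i.σ' x = r i.σ x` for `x ∈ D.E`; the same at `i.τ`.
`i.tame.uniq` with `Q = Gal(D.E/K)`: `(Ghat.pr D).comp θ = r`.  This contradicts `NoLift D i`.
-/

open MvPolynomial IntermediateField NumberField IsDedekindDomain
open scoped TensorProduct

namespace Pool.Agent.Helper1.SG

open Pool.Agent.SB Pool.Agent.Helper60.SL Pool.Agent.Helper1.SR

theorem no_lift_contra {k : Type} [Field k] [NumberField k] {Ω : Type} [Field Ω] [Algebra k Ω]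
    [IsAlgClosed Ω] {K : IntermediateField k Ω} [Algebra.IsAlgebraic K Ω] {ℓ : ℕ}
    (hℓ : ℓ.Prime) {A : Type} [Ring A] [Algebra K A] [IsAzumaya K A] (D : Datum K Ω A)
    {U : Ultrafilter (PDat K ℓ)} {σ τ : Ω ≃ₐ[K] Ω} (h : Conv U σ τ)
    (hno : ∀ᶠ i in (U : Filter (PDat K ℓ)), NoLift D i) (a b : Ghat D) (N : ℕ)
    (ha : ∀ x : D.E, ((a.g x : D.E) : Ω) = σ x) (hb : ∀ x : D.E, ((b.g x : D.E) : Ω) = τ x)
    (hq : ∀ q : ℕ, (∀ ζ : Ω, ζ ^ (ℓ ^ N) = 1 → σ ζ = ζ ^ q) → a * b * a⁻¹ = b ^ q) :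
    False := by
  have hGf : Finite (Ghat D) := ghat_finite D
  have hEf : Finite (D.E ≃ₐ[K] D.E) := inferInstance
  have hℓN : ℓ ^ N ≠ 0 := pow_ne_zero N hℓ.ne_zero
  have hchar : CharZero Ω := charZero_of_injective_algebraMap (algebraMap k Ω).injective
  have hNe : NeZero ((ℓ ^ N : ℕ) : Ω) := ⟨Nat.cast_ne_zero.2 hℓN⟩
  obtain ⟨ζ, hζ⟩ : ∃ ζ : Ω, IsPrimitiveRoot ζ (ℓ ^ N) := HasEnoughRootsOfUnity.exists_primitiveRoot Ω (ℓ ^ N)
  have hζint : IsIntegral K ζ := by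
    refine IsIntegral.of_pow (Nat.pos_of_ne_zero hℓN) ?_
    rw [hζ.pow_eq_one]
    exact isIntegral_one
  have hfζ : FiniteDimensional K (IntermediateField.adjoin K ({ζ} : Set Ω)) :=
    IntermediateField.adjoin.finiteDimensional hζint
  obtain ⟨M1, hM1⟩ : ∃ M1 : IntermediateField K Ω,
      M1 = D.E ⊔ IntermediateField.adjoin K ({ζ} : Set Ω) := ⟨_, rfl⟩
  have hfin1 : FiniteDimensional K M1 := by
    rw [hM1]
    exact IntermediateField.finiteDimensional_sup _ _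
  have hDM : D.E ≤ M1 := by
    rw [hM1]
    exact le_sup_left
  have hζM : ζ ∈ M1 := by
    rw [hM1]
    exact (le_sup_right : _ ≤ D.E ⊔ IntermediateField.adjoin K ({ζ} : Set Ω))
      (IntermediateField.mem_adjoin_simple_self K ζ)
  have ev1 := conv_ev h M1
  have ev2 := avoid_ev h (ℓ ^ N) hℓN
  have ev3 := avoid_ev h (Nat.card (Ghat D)) Nat.card_pos.ne'
  have ev4 := avoid_ev h (Nat.card (D.E ≃ₐ[K] D.E)) Nat.card_pos.ne'
  obtain ⟨i, ⟨⟨⟨⟨hM, hagree⟩, hp1⟩, hp2⟩, hp3⟩, hnl⟩ :=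
    ((((ev1.and ev2).and ev3).and ev4).and hno).exists
  have hME : M1 ≤ i.E := hM.trans i.hM
  have hDE : D.E ≤ i.E := hDM.trans hME
  have hab : a * b * a⁻¹ = b ^ i.q := by
    refine hq i.q fun z hz => ?_
    have hzk : z ∈ kbar k Ω := by
      rw [mem_algebraicClosure_iff]
      have h1 : IsIntegral k z := by
        refine IsIntegral.of_pow (Nat.pos_of_ne_zero hℓN) ?_
        rw [hz]
        exact isIntegral_one
      exact h1.isAlgebraic
    have hzM : z ∈ M1 := by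
      have hNe' : NeZero (ℓ ^ N) := ⟨hℓN⟩
      obtain ⟨m, -, hm⟩ := hζ.eq_pow_of_pow_eq_one hz
      rw [← hm]
      exact pow_mem hζM m
    have h2 := (frob_root i (ℓ ^ N) hp1 ⟨z, hzk⟩ (Subtype.ext hz) (hME hzM)).1
    rw [← (hagree z hzM).1]
    exact h2
  obtain ⟨θ, hθo, hθσ, hθτ⟩ := i.tame.exist (Ghat D) hp2 a b hab
  obtain ⟨r, hr⟩ := exists_res i.E D.E hDE (i.sF i.hF)
  have hro := res_open i.E D.E hDE (i.sF i.hF) (sF_cont i) r hr
  have hpo : IsOpen (((Ghat.pr D).comp θ).ker : Set i.F.fixingSubgroup) := by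
    refine Subgroup.isOpen_mono (H₁ := θ.ker) ?_ hθo
    intro γ hγ
    rw [MonoidHom.mem_ker] at hγ ⊢
    rw [MonoidHom.comp_apply, hγ, map_one]
  have hσ : ((Ghat.pr D).comp θ) i.σ = r i.σ := by
    apply AlgEquiv.ext
    intro x
    apply Subtype.ext
    have h1 := hr i.σ (x : Ω) x.2 (hDE x.2)
    have h2 := i.hσ' ⟨(x : Ω), hDE x.2⟩
    have h3 := (hagree (x : Ω) (hDM x.2)).1
    rw [MonoidHom.comp_apply, hθσ, Ghat.pr_apply, ha x, ← h3]
    exact h2.trans h1.symm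
  have hτ : ((Ghat.pr D).comp θ) i.τ = r i.τ := by
    apply AlgEquiv.ext
    intro x
    apply Subtype.ext
    have h1 := hr i.τ (x : Ω) x.2 (hDE x.2)
    have h2 := i.hτ' ⟨(x : Ω), hDE x.2⟩
    have h3 := (hagree (x : Ω) (hDM x.2)).2
    rw [MonoidHom.comp_apply, hθτ, Ghat.pr_apply, hb x, ← h3]
    exact h2.trans h1.symm
  have hpr := i.tame.uniq (D.E ≃ₐ[K] D.E) hp3 ((Ghat.pr D).comp θ) r hpo hro hσ hτ
  refine hnl θ hθo fun γ x hx => ?_
  have h1 : (θ γ).g = r γ := by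
    rw [← hpr]
    rfl
  rw [h1]
  exact hr γ (x : Ω) x.2 hx

end Pool.Agent.Helper1.SG
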