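import Pool.Agent.Helper79.SG.Defs
import Pool.Agent.Helper79.SG.V9a
import Pool.Agent.Helper60.SL.T2F

set_option autoImplicit false

/-!
# PROJECT SB, block GB (proof of `local_lift`): definitions

Indices for the limit pair: a place, a section `s` over `D_v` on the field `E`, a finite extension
`F` of `decField j` with a tame pair `(σ, τ)`, extended by `s` to `(σ', τ')` in `Gal(Ω/K)`.
-/

open MvPolynomial IntermediateField NumberField IsDedekindDomain
open scoped TensorProduct

namespace Pool.Agent.Helper1.SG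

open Pool.Agent.SB Pool.Agent.Helper60.SL Pool.Agent.Helper1.SR

section

variable {k : Type} [Field k] [NumberField k] {Ω : Type} [Field Ω] [Algebra k Ω]
  (K : IntermediateField k Ω)

/-- a place `v` and a section over `D_v` with values in `Gal(E/K)` -/
structure LDat where
  /-- the place -/
  v : HeightOneSpectrum (𝓞 k)
  /-- the embedding -/
  j : kbar k Ω →ₐ[k] AlgebraicClosure (v.adicCompletion k)
  /-- the field -/
  E : IntermediateField K Ω
  /-- the section -/
  s : (decField j).fixingSubgroup →* (E ≃ₐ[K] E)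
  hs : KSec k K (decField j).fixingSubgroup E s

variable {K}

/-- the section restricted to `Gal(W/F)`, `F` above `decField j` -/
noncomputable def LDat.sF (i : LDat K) {F : IntermediateField k (kbar k Ω)} (hF : decField i.j ≤ F) :
    F.fixingSubgroup →* (i.E ≃ₐ[K] i.E) :=
  i.s.comp (Subgroup.inclusion (IntermediateField.fixingSubgroup_le hF))

variable (K)

/-- local data with a tame pair; `M` is a field on which the pair acts by elements of
`ℓ`-power order -/
structure PDat (ℓ : ℕ) extends LDat K where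
  /-- the finite level -/
  M : IntermediateField K Ω
  hM : M ≤ E
  /-- the residue characteristic -/
  p : ℕ
  hp : p.Prime
  hpv : (p : 𝓞 k) ∈ v.asIdeal
  /-- the finite extension of the decomposition field -/
  F : IntermediateField k (kbar k Ω)
  hF : decField j ≤ F
  hfin : FiniteDimensional (decField j) (extendScalars hF)
  /-- the number of elements of the residue field of `F` -/
  q : ℕ
  /-- the Frobenius -/
  σ : F.fixingSubgroup
  /-- the generator of tame inertia -/
  τ : F.fixingSubgroup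
  tame : TamePairF F p q σ τ
  /-- an extension of `s σ` -/
  σ' : Ω ≃ₐ[K] Ω
  /-- an extension of `s τ` -/
  τ' : Ω ≃ₐ[K] Ω
  hσ' : ∀ θ : E, σ' (θ : Ω) = ((toLDat.sF hF σ θ : E) : Ω)
  hτ' : ∀ θ : E, τ' (θ : Ω) = ((toLDat.sF hF τ θ : E) : Ω)
  pσ : ∃ n : ℕ, ∀ x ∈ M, (σ' ^ (ℓ ^ n)) x = x
  pτ : ∃ n : ℕ, ∀ x ∈ M, (τ' ^ (ℓ ^ n)) x = x

variable {K}

/-- `(σ, τ)` is the limit of the pairs `(σ', τ')` -/
structure Conv {ℓ : ℕ} (U : Ultrafilter (PDat K ℓ)) (σ τ : Ω ≃ₐ[K] Ω) : Prop where
  fin : ∀ M0 : IntermediateField K Ω, FiniteDimensional K M0 →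
    ∀ᶠ i in (U : Filter (PDat K ℓ)), M0 ≤ i.M
  pl : ∀ S : Finset (HeightOneSpectrum (𝓞 k)), ∀ᶠ i in (U : Filter (PDat K ℓ)), i.v ∉ S
  cσ : ∀ x : Ω, ∀ᶠ i in (U : Filter (PDat K ℓ)), i.σ' x = σ x
  cτ : ∀ x : Ω, ∀ᶠ i in (U : Filter (PDat K ℓ)), i.τ' x = τ x

/-- the section does not lift to `Ghat D` over `F` -/
def NoLift {A : Type} [Ring A] [Algebra K A] (D : Datum K Ω A) {ℓ : ℕ} (i : PDat K ℓ) : Prop :=
  ∀ θ : i.F.fixingSubgroup →* Ghat D, IsOpen (θ.ker : Set i.F.fixingSubgroup) →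
    ¬ ∀ (γ : i.F.fixingSubgroup) (x : D.E) (hx : (x : Ω) ∈ i.E),
      (((θ γ).g x : D.E) : Ω) = ((i.sF i.hF γ ⟨(x : Ω), hx⟩ : i.E) : Ω)

end

end Pool.Agent.Helper1.SG
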