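import Mathlib

set_option autoImplicit false

/-!
# SB-GB-02: limits of elements of a Galois group along an ultrafilter

PROOF of `exists_lim`.  Either: `Gal(Ω/K)` is compact for the Krull topology (Mathlib has
`CompactSpace Gal(Ω/K)` for `IsGalois K Ω`: search `InfiniteGalois` / `krullTopology`), so
`U.map g` converges to some `σ`, and `{τ | τ x = σ x}` is a neighbourhood of `σ` (contains the coset
of the fixing subgroup of the finite extension `K(x)`).  Or directly: for `x : Ω` the values
`g i x` are roots of `minpoly K x`, finitely many, so there is a unique `y` with `g i x = y` for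
`U`-almost all `i` (`Ultrafilter.eventually_exists_mem_iff` or finite union in an ultrafilter); put
`σ x = y`.  It is a `K`-algebra homomorphism (intersections of `U`-large sets are nonempty), and
an algebra endomorphism of an algebraic extension is bijective
(`Algebra.IsAlgebraic.algHom_bijective`).
PROOF of `lim_fin`.  Take a basis `b` of `M` over `K` (finite): for almost all `i` the elements
`g i` and `σ` agree at all `b m`, so they agree on `M` (both are `K`-linear, `Basis.ext`).
-/

namespace Pool.Agent.Helper1.SG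

theorem exists_lim {K Ω I : Type} [Field K] [Field Ω] [Algebra K Ω] [Algebra.IsAlgebraic K Ω]
    (U : Ultrafilter I) (g : I → (Ω ≃ₐ[K] Ω)) :
    ∃ σ : Ω ≃ₐ[K] Ω, ∀ x : Ω, ∀ᶠ i in (U : Filter I), g i x = σ x := by
  have h1 : ∀ x : Ω, ∃ y : Ω, ∀ᶠ i in (U : Filter I), g i x = y := by
    intro x
    have hx : IsAlgebraic K x := Algebra.IsAlgebraic.isAlgebraic x
    have h2 : ∀ᶠ i in (U : Filter I), ∃ y ∈ (minpoly K x).rootSet Ω, g i x = y := by
      refine Filter.Eventually.of_forall fun i => ⟨g i x, ?_, rfl⟩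
      rw [Polynomial.mem_rootSet]
      refine ⟨minpoly.ne_zero hx.isIntegral, ?_⟩
      have h3 := Polynomial.aeval_algHom_apply (g i : Ω →ₐ[K] Ω) x (minpoly K x)
      rw [minpoly.aeval, map_zero] at h3
      exact h3
    obtain ⟨y, _, hy⟩ := (Ultrafilter.eventually_exists_mem_iff
      ((minpoly K x).rootSet_finite Ω)).1 h2
    exact ⟨y, hy⟩
  choose s hs using h1
  have hone : s 1 = 1 := by
    obtain ⟨i, hi⟩ := (hs 1).exists
    rw [← hi, map_one]
  have hzero : s 0 = 0 := by
    obtain ⟨i, hi⟩ := (hs 0).exists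
    rw [← hi, map_zero]
  have hmul : ∀ a b, s (a * b) = s a * s b := by
    intro a b
    obtain ⟨i, hi, hi', hi''⟩ := ((hs (a * b)).and ((hs a).and (hs b))).exists
    rw [← hi, ← hi', ← hi'', map_mul]
  have hadd : ∀ a b, s (a + b) = s a + s b := by
    intro a b
    obtain ⟨i, hi, hi', hi''⟩ := ((hs (a + b)).and ((hs a).and (hs b))).exists
    rw [← hi, ← hi', ← hi'', map_add]
  have hcomm : ∀ r : K, s (algebraMap K Ω r) = algebraMap K Ω r := by
    intro r
    obtain ⟨i, hi⟩ := (hs (algebraMap K Ω r)).exists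
    rw [← hi, AlgEquiv.commutes]
  obtain ⟨σ0, hσ0⟩ : ∃ σ0 : Ω →ₐ[K] Ω, ∀ x, σ0 x = s x :=
    ⟨{ toFun := s, map_one' := hone, map_mul' := hmul, map_zero' := hzero, map_add' := hadd,
       commutes' := hcomm }, fun _ => rfl⟩
  refine ⟨AlgEquiv.ofBijective σ0 (Algebra.IsAlgebraic.algHom_bijective σ0), fun x => ?_⟩
  filter_upwards [hs x] with i hi
  rw [hi]
  exact (hσ0 x).symm

theorem lim_fin {K Ω I : Type} [Field K] [Field Ω] [Algebra K Ω]
    (U : Filter I) (g : I → (Ω ≃ₐ[K] Ω)) (σ : Ω ≃ₐ[K] Ω)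
    (h : ∀ x : Ω, ∀ᶠ i in U, g i x = σ x) (M : IntermediateField K Ω)
    [FiniteDimensional K M] : ∀ᶠ i in U, ∀ x ∈ M, g i x = σ x := by
  have h1 : ∀ᶠ i in U, ∀ m, g i (Module.finBasis K M m : Ω) = σ (Module.finBasis K M m : Ω) :=
    Filter.eventually_all.2 fun m => h _
  filter_upwards [h1] with i hi x hx
  have h2 : ((g i : Ω →ₐ[K] Ω).toLinearMap.comp M.val.toLinearMap) =
      ((σ : Ω →ₐ[K] Ω).toLinearMap.comp M.val.toLinearMap) :=
    (Module.finBasis K M).ext fun m => hi m
  exact congrArg (fun l : M →ₗ[K] Ω => l ⟨x, hx⟩) h2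

end Pool.Agent.Helper1.SG
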