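import Mathlib

set_option autoImplicit false

/-!
# SB-GB-06: residue characteristics

`exists_resChar`: `v.asIdeal` is a nonzero prime, so it is maximal and `𝓞 k ⧸ v.asIdeal` is a finite
field; its characteristic `p` is a prime in `v.asIdeal`.
`primes_avoid`: `N ≠ 0`; the set of `v` with `(N : 𝓞 k) ∈ v.asIdeal` is finite (finitely many prime
divisors of a nonzero ideal: `IsDedekindDomain.HeightOneSpectrum` has `Ideal.finite_factors`), and if
`p ∣ N` and `p ∈ v.asIdeal` then `N ∈ v.asIdeal`.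
-/

open NumberField IsDedekindDomain

namespace Pool.Agent.Helper1.SG

theorem exists_resChar {k : Type} [Field k] [NumberField k] (v : HeightOneSpectrum (𝓞 k)) :
    ∃ p : ℕ, p.Prime ∧ (p : 𝓞 k) ∈ v.asIdeal := by
  have hprime : v.asIdeal.IsPrime := v.isPrime
  have hN : Ideal.absNorm v.asIdeal ≠ 0 := by
    rw [Ne, Ideal.absNorm_eq_zero_iff]
    exact v.ne_bot
  have hmem : ((Ideal.absNorm v.asIdeal : ℕ) : 𝓞 k) ∈ v.asIdeal := Ideal.absNorm_mem v.asIdeal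
  obtain ⟨p, hp⟩ := CharP.exists (𝓞 k ⧸ v.asIdeal)
  have h0 : ((Ideal.absNorm v.asIdeal : ℕ) : 𝓞 k ⧸ v.asIdeal) = 0 := by
    have h1 := Ideal.Quotient.eq_zero_iff_mem.2 hmem
    rwa [map_natCast] at h1
  have hp0 : p ≠ 0 := by
    rintro rfl
    rw [CharP.cast_eq_zero_iff (𝓞 k ⧸ v.asIdeal) 0] at h0
    exact hN (Nat.eq_zero_of_zero_dvd h0)
  refine ⟨p, (CharP.char_is_prime_or_zero (𝓞 k ⧸ v.asIdeal) p).resolve_right hp0, ?_⟩
  rw [← Ideal.Quotient.eq_zero_iff_mem, map_natCast]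
  exact CharP.cast_eq_zero _ p

theorem primes_avoid (k : Type) [Field k] [NumberField k] (N : ℕ) (hN : N ≠ 0) :
    ∃ S : Finset (HeightOneSpectrum (𝓞 k)), ∀ v ∉ S, ∀ p : ℕ, p.Prime →
      (p : 𝓞 k) ∈ v.asIdeal → ¬ p ∣ N := by
  have hI : (Ideal.span {((N : ℕ) : 𝓞 k)} : Ideal (𝓞 k)) ≠ 0 := by
    rw [Ne, Ideal.zero_eq_bot, Ideal.span_singleton_eq_bot]
    exact Nat.cast_ne_zero.2 hN
  have hfin := Ideal.finite_factors hI
  refine ⟨hfin.toFinset, fun v hv p _ hpv hdvd => hv ?_⟩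
  rw [Set.Finite.mem_toFinset, Set.mem_ofPred_eq, Ideal.dvd_iff_le, Ideal.span_singleton_le_iff_mem]
  obtain ⟨m, rfl⟩ := hdvd
  rw [Nat.cast_mul]
  exact Ideal.mul_mem_right _ _ hpv

end Pool.Agent.Helper1.SG
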