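import Mathlib

set_option autoImplicit false

/-!
# SB-GB-03: restriction of a section to a normal subfield, extension to `Ω`

`exists_ext`: `AlgEquiv.liftNormal` (`Ω / K` is normal: algebraic and algebraically closed,
characteristic not needed; `normal_iff_splits`, `IsAlgClosed.splits`, or `IsAlgClosure.normal`).
`exists_res`: choose for every `γ` an extension `u γ ∈ Gal(Ω/K)` of `s γ` (`exists_ext`) and put
`r γ = AlgEquiv.restrictNormalHom M (u γ)`; it is multiplicative because on an element `θ` of `M ≤ E`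
its value is that of `s γ` (`s (γ γ') = s γ * s γ'`; `s γ' θ` is again in `M`).
`res_open`: `r.ker` is the set of `γ` with `r γ θ = θ` for all `θ` in a finite basis of `M`; the
stabiliser of `θ` is open by `hs`; finite intersection of open sets.
-/

namespace Pool.Agent.Helper1.SG

theorem exists_ext {K Ω : Type} [Field K] [Field Ω] [Algebra K Ω] [Algebra.IsAlgebraic K Ω]
    [IsAlgClosed Ω] (E : IntermediateField K Ω) (g : E ≃ₐ[K] E) :
    ∃ u : Ω ≃ₐ[K] Ω, ∀ θ : E, u (θ : Ω) = ((g θ : E) : Ω) := by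
  have hac : IsAlgClosure K Ω := ⟨inferInstance, inferInstance⟩
  have hn : Normal K Ω := IsAlgClosure.normal K Ω
  exact ⟨g.liftNormal Ω, fun θ => g.liftNormal_commutes Ω θ⟩

theorem exists_res {K Ω : Type} [Field K] [Field Ω] [Algebra K Ω] [Algebra.IsAlgebraic K Ω]
    [IsAlgClosed Ω] {G : Type} [Group G] (E M : IntermediateField K Ω) (hME : M ≤ E)
    [Normal K M] (s : G →* (E ≃ₐ[K] E)) :
    ∃ r : G →* (M ≃ₐ[K] M), ∀ (γ : G) (θ : Ω) (h1 : θ ∈ M) (h2 : θ ∈ E),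
      ((r γ ⟨θ, h1⟩ : M) : Ω) = ((s γ ⟨θ, h2⟩ : E) : Ω) := by
  choose u hu using fun γ => exists_ext E (s γ)
  have hval : ∀ (γ : G) (θ : Ω) (h1 : θ ∈ M) (h2 : θ ∈ E),
      ((AlgEquiv.restrictNormalHom M (u γ) ⟨θ, h1⟩ : M) : Ω) = ((s γ ⟨θ, h2⟩ : E) : Ω) := by
    intro γ θ h1 h2
    have h3 := AlgEquiv.restrictNormal_commutes (u γ) M ⟨θ, h1⟩
    have h4 := hu γ ⟨θ, h2⟩
    exact h3.trans h4
  have hmul : ∀ γ γ' : G, AlgEquiv.restrictNormalHom M (u (γ * γ')) =
      AlgEquiv.restrictNormalHom M (u γ) * AlgEquiv.restrictNormalHom M (u γ') := by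
    intro γ γ'
    apply AlgEquiv.ext
    rintro ⟨θ, h1⟩
    apply Subtype.ext
    have h2 : θ ∈ E := hME h1
    rw [hval _ θ h1 h2, map_mul, AlgEquiv.mul_apply, AlgEquiv.mul_apply]
    obtain ⟨θ', hθ'⟩ : ∃ θ' : M, θ' = AlgEquiv.restrictNormalHom M (u γ') ⟨θ, h1⟩ := ⟨_, rfl⟩
    have h3 : (θ' : Ω) = ((s γ' ⟨θ, h2⟩ : E) : Ω) := by rw [hθ', hval _ θ h1 h2]
    rw [← hθ']
    have h4 := hval γ (θ' : Ω) θ'.2 (hME θ'.2)
    have h5 : (⟨(θ' : Ω), hME θ'.2⟩ : E) = s γ' ⟨θ, h2⟩ := Subtype.ext h3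
    rw [h5] at h4
    exact h4.symm
  exact ⟨MonoidHom.mk' (fun γ => AlgEquiv.restrictNormalHom M (u γ)) hmul, hval⟩

theorem res_open {K Ω : Type} [Field K] [Field Ω] [Algebra K Ω] {G : Type} [Group G]
    [TopologicalSpace G] [IsTopologicalGroup G] (E M : IntermediateField K Ω) (hME : M ≤ E)
    [FiniteDimensional K M] (s : G →* (E ≃ₐ[K] E))
    (hs : ∀ θ : E, IsOpen {γ : G | s γ θ = θ}) (r : G →* (M ≃ₐ[K] M))
    (hr : ∀ (γ : G) (θ : Ω) (h1 : θ ∈ M) (h2 : θ ∈ E),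
      ((r γ ⟨θ, h1⟩ : M) : Ω) = ((s γ ⟨θ, h2⟩ : E) : Ω)) :
    IsOpen (r.ker : Set G) := by
  let b := Module.finBasis K M
  have h1 : (r.ker : Set G) = ⋂ i, {γ : G | s γ ⟨(b i : Ω), hME (b i).2⟩ = ⟨(b i : Ω), hME (b i).2⟩} := by
    ext γ
    rw [SetLike.mem_coe, MonoidHom.mem_ker, Set.mem_iInter]
    constructor
    · intro h i
      apply Subtype.ext
      rw [← hr γ (b i : Ω) (b i).2 (hME (b i).2), h]
      rfl
    · intro h
      have h2 : (r γ).toLinearMap = LinearMap.id := by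
        apply b.ext
        intro i
        apply Subtype.ext
        have h3 := hr γ (b i : Ω) (b i).2 (hME (b i).2)
        rw [h i] at h3
        exact h3
      apply AlgEquiv.ext
      intro x
      exact LinearMap.congr_fun h2 x
  rw [h1]
  exact isOpen_iInter_of_finite fun i => hs _

end Pool.Agent.Helper1.SG
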