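import Pool.Agent.Helper1.SG.Defs
import Pool.Agent.Helper1.SG.Lim
import Pool.Agent.Helper1.SG.Res
import Pool.Agent.Helper1.SG.Prm

set_option autoImplicit false

/-!
# SB-GB-10: basic facts on the indices of the limit pair

`exists_normal_fin`: the normal closure of a finite extension (`IntermediateField.normalClosure` /
`normalClosure K M1 Ω`; `Pool/Agent/Helper1/SR/FinGal.lean` has a similar lemma for finite sets).
`conv_ev`: `h.fin M0` and `lim_fin` (for `i.σ'` and `i.τ'`).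
`pow_agree`: induction on `m`: `M` is stable under `g` (it is normal, or `hst`).
`frob_root`: by `i.hσ'` `i.σ' z = (s σ) z` for `z ∈ i.E`, and by `KSec.ind` this is the image of `σ z` (`σ ∈ F.fixingSubgroup ≤
(decField j).fixingSubgroup`), which is `z ^ q` by `tame.acts` (`z ^ m = 1`, `¬ p ∣ m`).  For `τ`: `tame.iner` (`Iner`).
`avoid_ev`: `primes_avoid` and `h.pl`.
-/

open MvPolynomial IntermediateField NumberField IsDedekindDomain
open scoped TensorProduct

namespace Pool.Agent.Helper1.SG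

open Pool.Agent.SB Pool.Agent.Helper60.SL Pool.Agent.Helper1.SR

theorem exists_normal_fin {K Ω : Type} [Field K] [CharZero K] [Field Ω] [Algebra K Ω]
    [IsAlgClosed Ω] [Algebra.IsAlgebraic K Ω] (M1 : IntermediateField K Ω)
    [FiniteDimensional K M1] :
    ∃ M : IntermediateField K Ω, M1 ≤ M ∧ FiniteDimensional K M ∧ Normal K M := by
  have hn : Normal K Ω := normal_iff.2 fun x =>
    ⟨(Algebra.IsAlgebraic.isAlgebraic x).isIntegral, IsAlgClosed.splits _⟩
  exact ⟨IntermediateField.normalClosure K M1 Ω, IntermediateField.le_normalClosure M1,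
    inferInstance, inferInstance⟩

theorem pow_agree {K Ω : Type} [Field K] [Field Ω] [Algebra K Ω] (M : IntermediateField K Ω)
    (g σ : Ω ≃ₐ[K] Ω) (hst : ∀ x ∈ M, σ x ∈ M) (h : ∀ x ∈ M, g x = σ x) (m : ℕ) :
    ∀ x ∈ M, (g ^ m) x = (σ ^ m) x := by
  have hpow : ∀ m : ℕ, ∀ x ∈ M, (σ ^ m) x ∈ M := by
    intro m
    induction m with
    | zero => intro x hx; exact hx
    | succ m ih =>
      intro x hx
      rw [pow_succ', AlgEquiv.mul_apply]
      exact hst _ (ih x hx)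
  induction m with
  | zero => intro x _; rfl
  | succ m ih =>
    intro x hx
    rw [pow_succ', pow_succ', AlgEquiv.mul_apply, AlgEquiv.mul_apply, ih x hx]
    exact h _ (hpow m x hx)

section

variable {k : Type} [Field k] [NumberField k] {Ω : Type} [Field Ω] [Algebra k Ω]
  {K : IntermediateField k Ω} {ℓ : ℕ}

theorem conv_ev {U : Ultrafilter (PDat K ℓ)} {σ τ : Ω ≃ₐ[K] Ω} (h : Conv U σ τ)
    (M0 : IntermediateField K Ω) [FiniteDimensional K M0] :
    ∀ᶠ i in (U : Filter (PDat K ℓ)), M0 ≤ i.M ∧ ∀ x ∈ M0, i.σ' x = σ x ∧ i.τ' x = τ x := by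
  filter_upwards [h.fin M0 inferInstance, lim_fin (U : Filter (PDat K ℓ)) (fun i => i.σ') σ h.cσ M0,
    lim_fin (U : Filter (PDat K ℓ)) (fun i => i.τ') τ h.cτ M0] with i h1 h2 h3
  exact ⟨h1, fun x hx => ⟨h2 x hx, h3 x hx⟩⟩

theorem avoid_ev {U : Ultrafilter (PDat K ℓ)} {σ τ : Ω ≃ₐ[K] Ω} (h : Conv U σ τ)
    (N : ℕ) (hN : N ≠ 0) : ∀ᶠ i in (U : Filter (PDat K ℓ)), ¬ i.p ∣ N := by
  obtain ⟨S, hS⟩ := primes_avoid k N hN
  filter_upwards [h.pl S] with i hi
  exact hS i.v hi i.p i.hp i.hpv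

theorem frob_root (i : PDat K ℓ) (m : ℕ) (hm : ¬ i.p ∣ m) (z : kbar k Ω) (hz : z ^ m = 1)
    (hE : (z : Ω) ∈ i.E) : i.σ' (z : Ω) = (z : Ω) ^ i.q ∧ i.τ' (z : Ω) = (z : Ω) := by
  constructor
  · have h1 := i.hσ' ⟨(z : Ω), hE⟩
    have h2 := i.hs.ind (Subgroup.inclusion (IntermediateField.fixingSubgroup_le i.hF) i.σ) z hE
    have h3 : ((i.σ : i.F.fixingSubgroup) : kbar k Ω ≃ₐ[k] kbar k Ω) z = z ^ i.q :=
      i.tame.acts z m hm hz
    have h4 : i.σ' (z : Ω) = (((i.σ : i.F.fixingSubgroup) : kbar k Ω ≃ₐ[k] kbar k Ω) z : Ω) :=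
      h1.trans h2
    rw [h4, h3]
    rfl
  · have h1 := i.hτ' ⟨(z : Ω), hE⟩
    have h2 := i.hs.ind (Subgroup.inclusion (IntermediateField.fixingSubgroup_le i.hF) i.τ) z hE
    have h3 : ((i.τ : i.F.fixingSubgroup) : kbar k Ω ≃ₐ[k] kbar k Ω) z = z :=
      i.tame.iner.2 z m hm hz
    have h4 : i.τ' (z : Ω) = (((i.τ : i.F.fixingSubgroup) : kbar k Ω ≃ₐ[k] kbar k Ω) z : Ω) :=
      h1.trans h2
    rw [h4, h3]

end

end Pool.Agent.Helper1.SG
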