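import Pool.Agent.Helper1.SG.Rel
import Pool.Agent.Helper60.SL.T3

set_option autoImplicit false

/-!
# SB-GB-12: the limit pair is a `KPair`

`p_lim` (`pσ`, `pτ`): for `x` take `M0` finite normal over `K` containing `x` (`exists_normal_fin` for `K(x)`); by `conv_ev` some `i` has
`M0 ≤ i.M` and `i.σ' = σ`, `i.τ' = τ` on `M0`; `i.pσ` gives `n` with `(i.σ' ^ (ℓ^n)) x = x`, and `pow_agree` gives `(σ ^ (ℓ^n)) x = x`.
`mu_lim`: `ζ ^ ℓ = 1`.  If `ζ = 1` nothing to do.  Otherwise `ζ` is a primitive `ℓ`-th root of unity, `σ ζ = ζ ^ a` for some `a`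
(`σ ζ` is an `ℓ`-th root of unity, `IsPrimitiveRoot.eq_pow_of_pow_eq_one`), `(σ ^ m) ζ = ζ ^ (a ^ m)`, so with `m = ℓ ^ n`:
`ζ ^ (a ^ (ℓ ^ n)) = ζ`, `a ^ (ℓ ^ n) = 1 mod ℓ`, and by Fermat `a ^ (ℓ ^ n) = a mod ℓ` (`ZMod.pow_card` iterated), so `a = 1 mod ℓ`, `σ ζ = ζ`.
`rel_lim`: let `x : Ω`, `M0` finite normal containing `x`, `Q = Gal(M0/K)` finite, `τ0 = τ|M0 ∈ Q`; choose `N` such that `τ0 ^ (ℓ ^ N) = 1`
(by `pτ`: `(τ ^ (ℓ^n)) b = b` on a finite basis; take the maximum of the `n`), i.e. `(τ ^ (ℓ ^ N)) y = y` for `y ∈ M0`.  Let `q` be given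
with `σ ζ = ζ ^ q` for `ζ ^ (ℓ ^ N) = 1`.  Let `M1` be finite normal containing `M0` and the `ℓ ^ N`-th roots of unity (one primitive root
`ζ`).  Take an index `i` with `M1 ≤ i.M`, `i.σ' = σ`, `i.τ' = τ` on `M1` (`conv_ev`), `¬ i.p ∣ ℓ ^ N` and `¬ i.p ∣ Nat.card Q` (`avoid_ev`).
`frob_root` (roots of unity are in `kbar`): `σ ζ = i.σ' ζ = ζ ^ i.q`, so `ζ ^ q = ζ ^ i.q`, `q = i.q mod ℓ ^ N`.  `rel_level` for `M0`:
`(i.σ' i.τ' i.σ'⁻¹) x = (i.τ' ^ i.q) x`, i.e. `(σ τ σ⁻¹) x = (τ ^ i.q) x = (τ ^ q) x` as `τ ^ (ℓ ^ N)` is trivial on `M0`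
(and `M0` is stable under `τ`).
`bar_lim`: `a` algebraic over `k`: `a : kbar k Ω`; `L = k(a)` finite over `k`; `iner_fix` (Helper60/SL/T3) for `W = kbar k Ω`, `L` gives `S`.  Take `i`
with `i.v ∉ S`, `a ∈ i.M ≤ i.E`, `i.τ' a = τ a`: by `i.hτ'` and `KSec.ind` `i.τ' a = (τ_i a : Ω)`, and `τ_i ∈ Iner F p` fixes `a`.
(`K(a)` is finite dimensional over `K`: `Ω / K` algebraic.)
-/

open MvPolynomial IntermediateField NumberField IsDedekindDomain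
open scoped TensorProduct

namespace Pool.Agent.Helper1.SG

open Pool.Agent.SB Pool.Agent.Helper60.SL Pool.Agent.Helper1.SR

/-- An intermediate field which is normal over the base is stable. -/
private theorem kp_stable {K Ω : Type} [Field K] [Field Ω] [Algebra K Ω] (M : IntermediateField K Ω)
    [Normal K M] (g : Ω ≃ₐ[K] Ω) : ∀ x ∈ M, g x ∈ M := by
  intro x hx
  have h1 := AlgEquiv.restrictNormal_commutes g M (⟨x, hx⟩ : M)
  have h2 : g x = ((g.restrictNormal M ⟨x, hx⟩ : M) : Ω) := h1.symm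
  rw [h2]
  exact (g.restrictNormal M ⟨x, hx⟩ : M).2

private theorem kp_fin {K Ω : Type} [Field K] [CharZero K] [Field Ω] [Algebra K Ω]
    [IsAlgClosed Ω] [Algebra.IsAlgebraic K Ω] (x : Ω) :
    ∃ M : IntermediateField K Ω, x ∈ M ∧ FiniteDimensional K M ∧ Normal K M := by
  have hfd : FiniteDimensional K (IntermediateField.adjoin K {x}) :=
    IntermediateField.adjoin.finiteDimensional (Algebra.IsIntegral.isIntegral x)
  obtain ⟨M, h1, h2, h3⟩ := exists_normal_fin (IntermediateField.adjoin K {x})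
  exact ⟨M, h1 (IntermediateField.mem_adjoin_simple_self K x), h2, h3⟩

private theorem kp_root {Ω : Type} [Field Ω] {ζ : Ω} {m : ℕ} (h : IsPrimitiveRoot ζ m) (hm : m ≠ 0) (a b : ℕ) :
    ζ ^ a = ζ ^ b ↔ a ≡ b [MOD m] := by
  have hζ : ζ ≠ 0 := h.ne_zero hm
  have key : ∀ a b : ℕ, a ≤ b → (ζ ^ a = ζ ^ b ↔ a ≡ b [MOD m]) := by
    intro a b hle
    rw [Nat.modEq_iff_dvd' hle, ← h.pow_eq_one_iff_dvd]
    have h1 : ζ ^ b = ζ ^ a * ζ ^ (b - a) := by rw [← pow_add, Nat.add_sub_cancel' hle]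
    rw [h1]
    constructor
    · intro h2
      exact (mul_eq_left₀ (pow_ne_zero a hζ)).1 h2.symm
    · intro h2
      rw [h2, mul_one]
  rcases le_total a b with hle | hle
  · exact key a b hle
  · rw [eq_comm, key b a hle]
    exact ⟨Nat.ModEq.symm, Nat.ModEq.symm⟩

private theorem kp_pow_mul {K Ω : Type} [Field K] [Field Ω] [Algebra K Ω] {g : Ω ≃ₐ[K] Ω} {m : ℕ} {x : Ω}
    (h : (g ^ m) x = x) (t : ℕ) : (g ^ (m * t)) x = x := by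
  induction t with
  | zero => rfl
  | succ t ih =>
    rw [Nat.mul_succ, pow_add]
    change (g ^ (m * t)) ((g ^ m) x) = x
    rw [h, ih]

private theorem kp_pow_mod {K Ω : Type} [Field K] [Field Ω] [Algebra K Ω] {g : Ω ≃ₐ[K] Ω} {m a b : ℕ} {x : Ω}
    (h : (g ^ m) x = x) (hab : a ≡ b [MOD m]) : (g ^ a) x = (g ^ b) x := by
  have key : ∀ a b : ℕ, a ≤ b → a ≡ b [MOD m] → (g ^ a) x = (g ^ b) x := by
    intro a b hle hab
    obtain ⟨t, ht⟩ := (Nat.modEq_iff_dvd' hle).1 hab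
    have h1 : b = a + m * t := by omega
    rw [h1, pow_add]
    change (g ^ a) x = (g ^ a) ((g ^ (m * t)) x)
    rw [kp_pow_mul h]
  rcases le_total a b with hle | hle
  · exact key a b hle hab
  · exact (key b a hle hab.symm).symm

section

variable {k : Type} [Field k] [NumberField k] {Ω : Type} [Field Ω] [Algebra k Ω] [IsAlgClosed Ω]
  {K : IntermediateField k Ω} [Algebra.IsAlgebraic K Ω] {ℓ : ℕ}

theorem p_lim {U : Ultrafilter (PDat K ℓ)} {σ τ : Ω ≃ₐ[K] Ω} (h : Conv U σ τ) (x : Ω) :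
    (∃ n : ℕ, (σ ^ (ℓ ^ n)) x = x) ∧ ∃ n : ℕ, (τ ^ (ℓ ^ n)) x = x := by
  have hcK : CharZero K := charZero_of_injective_algebraMap (algebraMap k K).injective
  obtain ⟨M0, hx, hfd, hn⟩ := kp_fin (K := K) x
  obtain ⟨i, hi1, hi2⟩ := (conv_ev h M0).exists
  obtain ⟨n, hn1⟩ := i.pσ
  obtain ⟨m, hm1⟩ := i.pτ
  refine ⟨⟨n, ?_⟩, ⟨m, ?_⟩⟩
  · rw [← pow_agree M0 i.σ' σ (kp_stable M0 σ) (fun y hy => (hi2 y hy).1) (ℓ ^ n) x hx]
    exact hn1 x (hi1 hx)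
  · rw [← pow_agree M0 i.τ' τ (kp_stable M0 τ) (fun y hy => (hi2 y hy).2) (ℓ ^ m) x hx]
    exact hm1 x (hi1 hx)

theorem mu_lim (hℓ : ℓ.Prime) {σ : Ω ≃ₐ[K] Ω}
    (h : ∀ x : Ω, ∃ n : ℕ, (σ ^ (ℓ ^ n)) x = x) (ζ : Ω) (hζ : ζ ^ ℓ = 1) : σ ζ = ζ := by
  by_cases h1 : ζ = 1
  · rw [h1, map_one]
  have hord : orderOf ζ = ℓ := by
    have hf : Fact ℓ.Prime := ⟨hℓ⟩
    exact orderOf_eq_prime hζ h1
  have hprim : IsPrimitiveRoot ζ ℓ := by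
    have h2 := IsPrimitiveRoot.orderOf ζ
    rwa [hord] at h2
  have hne : NeZero ℓ := ⟨hℓ.ne_zero⟩
  obtain ⟨a, -, ha⟩ := hprim.eq_pow_of_pow_eq_one (ξ := σ ζ) (by rw [← map_pow, hζ, map_one])
  have hpow : ∀ m : ℕ, (σ ^ m) ζ = ζ ^ (a ^ m) := by
    intro m
    induction m with
    | zero => rw [pow_zero, pow_zero, pow_one]; rfl
    | succ m ih =>
      rw [pow_succ]
      change (σ ^ m) (σ ζ) = _
      rw [← ha, map_pow, ih, ← pow_mul, ← pow_succ]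
  obtain ⟨n, hn⟩ := h ζ
  rw [hpow] at hn
  have h2 : a ^ ℓ ^ n ≡ 1 [MOD ℓ] := by
    have h3 : ζ ^ (a ^ ℓ ^ n) = ζ ^ 1 := by rw [hn, pow_one]
    exact (kp_root hprim hℓ.ne_zero _ _).1 h3
  have h3 : a ^ ℓ ^ n ≡ a [MOD ℓ] := by
    have hf : Fact ℓ.Prime := ⟨hℓ⟩
    rw [← ZMod.natCast_eq_natCast_iff, Nat.cast_pow, ZMod.pow_card_pow]
  have h4 : ζ ^ a = ζ ^ 1 := by
    rw [kp_root hprim hℓ.ne_zero]
    exact h3.symm.trans h2
  rw [← ha, h4, pow_one]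

theorem rel_lim (hℓ : ℓ.Prime) {U : Ultrafilter (PDat K ℓ)} {σ τ : Ω ≃ₐ[K] Ω}
    (h : Conv U σ τ) (x : Ω) :
    ∃ N : ℕ, ∀ q : ℕ, (∀ ζ : Ω, ζ ^ (ℓ ^ N) = 1 → σ ζ = ζ ^ q) →
    (σ * τ * σ⁻¹) x = (τ ^ q) x := by
  have hcK : CharZero K := charZero_of_injective_algebraMap (algebraMap k K).injective
  have hcΩ : CharZero Ω := charZero_of_injective_algebraMap (algebraMap k Ω).injective
  obtain ⟨M0, hx, hfd, hn⟩ := kp_fin (K := K) x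
  obtain ⟨i0, hi1, hi2⟩ := (conv_ev h M0).exists
  obtain ⟨N, hN⟩ := i0.pτ
  have hτN : ∀ y ∈ M0, (τ ^ (ℓ ^ N)) y = y := by
    intro y hy
    rw [← pow_agree M0 i0.τ' τ (kp_stable M0 τ) (fun y hy => (hi2 y hy).2) (ℓ ^ N) y hy]
    exact hN y (hi1 hy)
  refine ⟨N, fun q hq => ?_⟩
  have hN0 : ℓ ^ N ≠ 0 := pow_ne_zero _ hℓ.ne_zero
  have hne : NeZero (ℓ ^ N) := ⟨hN0⟩
  obtain ⟨ζ, hζ⟩ := HasEnoughRootsOfUnity.exists_primitiveRoot Ω (ℓ ^ N)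
  obtain ⟨Mζ, hζM, hfdζ, -⟩ := kp_fin (K := K) ζ
  have hfd2 : FiniteDimensional K (M0 ⊔ Mζ : IntermediateField K Ω) := IntermediateField.finiteDimensional_sup M0 Mζ
  have hcard : Nat.card (M0 ≃ₐ[K] M0) ≠ 0 := Nat.card_pos.ne'
  obtain ⟨i, ⟨⟨hle, hag⟩, hp1⟩, hp2⟩ :=
    (((conv_ev h (M0 ⊔ Mζ : IntermediateField K Ω)).and (avoid_ev h (ℓ ^ N) hN0)).and (avoid_ev h _ hcard)).exists
  have hag0 : ∀ y ∈ M0, i.σ' y = σ y ∧ i.τ' y = τ y := fun y hy =>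
    hag y (le_sup_left (a := M0) (b := Mζ) hy)
  have hMi : M0 ≤ i.E := (le_sup_left.trans hle).trans i.hM
  -- the root of unity
  have hζalg : IsAlgebraic k ζ := (IsPrimitiveRoot.isIntegral hζ (Nat.pos_of_ne_zero hN0)).tower_top.isAlgebraic
  have hζ1 : i.σ' ζ = ζ ^ i.q := by
    have h1 := frob_root i (ℓ ^ N) hp1 ⟨ζ, mem_algebraicClosure_iff.2 hζalg⟩
      (Subtype.ext hζ.pow_eq_one) (i.hM (hle (le_sup_right (a := M0) (b := Mζ) hζM)))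
    exact h1.1
  have hζ2 : i.σ' ζ = σ ζ := (hag ζ (le_sup_right (a := M0) (b := Mζ) hζM)).1
  have hmod : q ≡ i.q [MOD ℓ ^ N] := by
    have h1 : ζ ^ q = ζ ^ i.q := by rw [← hq ζ hζ.pow_eq_one, ← hζ2, hζ1]
    exact (kp_root hζ hN0 _ _).1 h1
  have hrel := rel_level i M0 hMi hp2 x hx
  have h1 : (i.τ' ^ i.q) x = (τ ^ i.q) x :=
    pow_agree M0 i.τ' τ (kp_stable M0 τ) (fun y hy => (hag0 y hy).2) i.q x hx
  have h2 : (τ ^ q) x = (τ ^ i.q) x := kp_pow_mod (hτN x hx) hmod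
  rw [h1, ← h2] at hrel
  rw [← hrel]
  have hsx : σ⁻¹ x ∈ M0 := kp_stable M0 σ⁻¹ x hx
  have hinv : i.σ'⁻¹ x = σ⁻¹ x := by
    change i.σ'.symm x = σ⁻¹ x
    rw [AlgEquiv.symm_apply_eq, (hag0 _ hsx).1]
    exact (σ.apply_symm_apply x).symm
  change σ (τ (σ⁻¹ x)) = i.σ' (i.τ' (i.σ'⁻¹ x))
  rw [hinv, (hag0 _ hsx).2, (hag0 _ (kp_stable M0 τ _ hsx)).1]

theorem bar_lim {U : Ultrafilter (PDat K ℓ)} {σ τ : Ω ≃ₐ[K] Ω} (h : Conv U σ τ) (a : Ω)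
    (ha : IsAlgebraic k a) : τ a = a := by
  have hac : IsAlgClosure k (kbar k Ω) := inferInstance
  have hac' : IsAlgClosed (kbar k Ω) := hac.isAlgClosed
  have hmem : a ∈ kbar k Ω := mem_algebraicClosure_iff.2 ha
  have hfd : FiniteDimensional k (IntermediateField.adjoin k {(⟨a, hmem⟩ : kbar k Ω)}) :=
    IntermediateField.adjoin.finiteDimensional (Algebra.IsIntegral.isIntegral _)
  obtain ⟨S, hS⟩ := iner_fix (k := k) (W := kbar k Ω) (IntermediateField.adjoin k {(⟨a, hmem⟩ : kbar k Ω)})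
  have hfdK : FiniteDimensional K (IntermediateField.adjoin K {a}) :=
    IntermediateField.adjoin.finiteDimensional (Algebra.IsIntegral.isIntegral a)
  obtain ⟨i, ⟨hi1, hi2⟩, hi3⟩ := (((h.pl S).and (h.cτ a)).and (h.fin (IntermediateField.adjoin K {a}) hfdK)).exists
  have haE : a ∈ i.E := i.hM (hi3 (IntermediateField.mem_adjoin_simple_self K a))
  have h1 := i.hτ' ⟨a, haE⟩
  have h2 := i.hs.ind (Subgroup.inclusion (IntermediateField.fixingSubgroup_le i.hF) i.τ) ⟨a, hmem⟩ haE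
  have h3 := hS i.v hi1 i.p i.hp i.hpv i.j i.F i.hF i.hfin (i.τ : kbar k Ω ≃ₐ[k] kbar k Ω) i.tame.iner
    ⟨a, hmem⟩ (IntermediateField.mem_adjoin_simple_self k _)
  have h4 : i.τ' a = (((i.τ : kbar k Ω ≃ₐ[k] kbar k Ω) ⟨a, hmem⟩ : kbar k Ω) : Ω) := h1.trans h2
  rw [← hi2, h4, h3]

theorem kpair_of_conv (hℓ : ℓ.Prime) {U : Ultrafilter (PDat K ℓ)} {σ τ : Ω ≃ₐ[K] Ω}
    (h : Conv U σ τ) : KPair k ℓ σ τ :=
  ⟨fun x => (p_lim h x).1, fun x => (p_lim h x).2, fun x => rel_lim hℓ h x,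
    fun ζ hζ => mu_lim hℓ (fun x => (p_lim h x).1) ζ hζ, fun a ha => bar_lim h a ha⟩

end

end Pool.Agent.Helper1.SG
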