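import Pool.Agent.Helper79.SB.Common

set_option autoImplicit false

/-!
# SB-GB-14: stability of the field of étale covers, restriction of a section to a stable subfield

`etField_stable`: `θ ∈ etSet k R`: `θ = φ s` with `φ : S →ₐ[R] Ω`; `g ∘ φ` is again an `R`-algebra homomorphism (`g` fixes
the elements of `R`), so `g θ ∈ etSet k R`.  `etField k R = adjoin k (etSet k R)`; the set of `θ` with `g θ ∈ etField k R` is an
intermediate field (`comap`) containing `etSet k R`.
`xring_fixed`: `xring` is generated over `k` by `k1`, `x`, `1 / (x - c i)` with `c i ∈ k1`; the set of fixed points of the `k`-algebra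
automorphism `g` is a subalgebra containing the generators (`Algebra.adjoin_induction`).
`exists_resZ`: for `γ` define `s' γ : Z ≃ₐ[k] Z` by `θ ↦ s γ θ ∈ Z` (stable for `γ` and `γ⁻¹`; `map_mul` from `s`).  To build an algebra
equivalence give `toFun`, `invFun` (from `s γ⁻¹`), and prove the laws with `Subtype.ext`.
-/

open MvPolynomial IntermediateField NumberField IsDedekindDomain
open scoped TensorProduct

namespace Pool.Agent.Helper1.SG

open Pool.Agent.SB

theorem etField_stable (k : Type) [Field k] {Ω : Type} [Field Ω] [Algebra k Ω]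
    (R : Subalgebra k Ω) (g : Ω ≃ₐ[k] Ω) (hg : ∀ x ∈ R, g x = x) :
    ∀ θ ∈ etField k R, g θ ∈ etField k R := by
  have h1 : ∀ y ∈ etSet k R, g y ∈ etSet k R := by
    rintro y ⟨S, iS, iA, hfin, het, φ, s, rfl⟩
    letI := iS
    letI := iA
    refine ⟨S, iS, iA, hfin, het, { toRingHom := (g : Ω →+* Ω).comp (φ : S →+* Ω), commutes' := ?_ },
      s, rfl⟩
    intro r
    show g (φ (algebraMap R S r)) = algebraMap R Ω r
    rw [φ.commutes]
    exact hg r r.2
  intro θ hθ
  unfold etField at hθ ⊢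
  induction hθ using IntermediateField.adjoin_induction with
  | mem y hy => exact IntermediateField.subset_adjoin k _ (h1 y hy)
  | algebraMap y =>
    rw [g.commutes]
    exact IntermediateField.algebraMap_mem _ y
  | add a b ha hb iha ihb =>
    rw [map_add]
    exact add_mem iha ihb
  | inv a ha iha =>
    rw [map_inv₀]
    exact inv_mem iha
  | mul a b ha hb iha ihb =>
    rw [map_mul]
    exact mul_mem iha ihb

theorem xring_fixed (k : Type) [Field k] {Ω : Type} [Field Ω] [Algebra k Ω]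
    (k1 : IntermediateField k (kbar k Ω)) (x : Ω) (c : Fin 3 → kbar k Ω) (hc : ∀ i, c i ∈ k1)
    (g : Ω ≃ₐ[k] Ω) (hx : g x = x) (hk1 : ∀ a ∈ k1, g (a : Ω) = (a : Ω)) :
    ∀ z ∈ xring k k1 x c, g z = z := by
  intro z hz
  unfold xring at hz
  induction hz using Algebra.adjoin_induction with
  | mem y hy =>
    rcases hy with (⟨a, ha, rfl⟩ | hy) | ⟨i, rfl⟩
    · exact hk1 a ha
    · rw [Set.mem_singleton_iff] at hy
      rw [hy, hx]
    · rw [map_inv₀, map_sub, hx, hk1 _ (hc i)]
  | algebraMap r => exact g.commutes r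
  | add a b _ _ iha ihb => rw [map_add, iha, ihb]
  | mul a b _ _ iha ihb => rw [map_mul, iha, ihb]

theorem exists_resZ {k Ω : Type} [Field k] [Field Ω] [Algebra k Ω] {K : IntermediateField k Ω}
    {G : Type} [Group G] (E : IntermediateField K Ω) (Z : IntermediateField k Ω)
    (hZ : ∀ z ∈ Z, z ∈ E) (s : G →* (E ≃ₐ[K] E))
    (hst : ∀ (γ : G) (z : Ω) (_ : z ∈ Z) (h : z ∈ E), ((s γ ⟨z, h⟩ : E) : Ω) ∈ Z) :
    ∃ s' : G →* (Z ≃ₐ[k] Z), ∀ (γ : G) (z : Ω) (h1 : z ∈ Z) (h2 : z ∈ E),
      ((s' γ ⟨z, h1⟩ : Z) : Ω) = ((s γ ⟨z, h2⟩ : E) : Ω) := by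
  obtain ⟨act, hact⟩ : ∃ act : G → Z → Z, ∀ (γ : G) (z : Ω) (h1 : z ∈ Z) (h2 : z ∈ E),
      ((act γ ⟨z, h1⟩ : Z) : Ω) = ((s γ ⟨z, h2⟩ : E) : Ω) :=
    ⟨fun γ z => ⟨s γ ⟨z, hZ z z.2⟩, hst γ z z.2 (hZ z z.2)⟩, fun _ _ _ _ => rfl⟩
  have hact' : ∀ (γ : G) (z : Z), ((act γ z : Z) : Ω) = ((s γ ⟨z, hZ z z.2⟩ : E) : Ω) :=
    fun γ z => hact γ z z.2 (hZ z z.2)
  have hone : ∀ z, act 1 z = z := by
    intro z
    apply Subtype.ext
    rw [hact', map_one]
    rfl
  have hmul : ∀ γ δ z, act (γ * δ) z = act γ (act δ z) := by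
    intro γ δ z
    apply Subtype.ext
    rw [hact', hact', map_mul]
    have h1 : (⟨(act δ z : Ω), hZ _ (act δ z).2⟩ : E) = s δ ⟨z, hZ z z.2⟩ :=
      Subtype.ext (hact' δ z)
    rw [h1]
    rfl
  have hmm : ∀ γ a b, act γ (a * b) = act γ a * act γ b := by
    intro γ a b
    apply Subtype.ext
    show ((act γ (a * b) : Z) : Ω) = (act γ a : Ω) * (act γ b : Ω)
    rw [hact', hact', hact']
    have h1 : (⟨((a * b : Z) : Ω), hZ _ (a * b).2⟩ : E) = ⟨a, hZ a a.2⟩ * ⟨b, hZ b b.2⟩ := rfl
    rw [h1, map_mul]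
    rfl
  have haa : ∀ γ a b, act γ (a + b) = act γ a + act γ b := by
    intro γ a b
    apply Subtype.ext
    show ((act γ (a + b) : Z) : Ω) = (act γ a : Ω) + (act γ b : Ω)
    rw [hact', hact', hact']
    have h1 : (⟨((a + b : Z) : Ω), hZ _ (a + b).2⟩ : E) = ⟨a, hZ a a.2⟩ + ⟨b, hZ b b.2⟩ := rfl
    rw [h1, map_add]
    rfl
  have hcc : ∀ γ (r : k), act γ (algebraMap k Z r) = algebraMap k Z r := by
    intro γ r
    apply Subtype.ext
    rw [hact']
    have h1 : (⟨((algebraMap k Z r : Z) : Ω), hZ _ (algebraMap k Z r).2⟩ : E) =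
        algebraMap K E (algebraMap k K r) := rfl
    rw [h1, AlgEquiv.commutes]
    rfl
  refine ⟨{ toFun := fun γ =>
              { toFun := act γ
                invFun := act γ⁻¹
                left_inv := fun z => by rw [← hmul, inv_mul_cancel, hone]
                right_inv := fun z => by rw [← hmul, mul_inv_cancel, hone]
                map_mul' := hmm γ
                map_add' := haa γ
                commutes' := hcc γ }
            map_one' := ?_
            map_mul' := ?_ }, hact⟩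
  · ext z
    exact congrArg _ (hone z)
  · intro γ δ
    ext z
    exact congrArg _ (hmul γ δ z)

end Pool.Agent.Helper1.SG
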