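import Mathlib

set_option autoImplicit false

/-!
# SB-GB-04: open subgroups of `Gal(W/F0)` and finite extensions of `F0`

`W / k` Galois (infinite), `F0 ≤ W`, `H` an open subgroup of `F0.fixingSubgroup`.
PROOF.  `H' = H.map (Subgroup.subtype _)` is a subgroup of `Gal(W/k)`.  `F0.fixingSubgroup` is closed, and
`H` is open, hence closed in it, so `H'` is closed in `Gal(W/k)`.  `F = fixedField H'`; by infinite Galois theory
(`InfiniteGalois.fixingSubgroup_fixedField` for closed subgroups) `F.fixingSubgroup = H'`.  `F0 ≤ F` since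
`H' ≤ F0.fixingSubgroup`.  `F` is finite over `F0`: `H` is open of finite index in the compact group
`F0.fixingSubgroup ≃ Gal(W/F0)`; e.g. work with `extendScalars` and the Krull topology of `W ≃ₐ[F0] W`
(`IntermediateField.fixingSubgroup_isOpen`/`finiteDimensional_of_open`; Mathlib has
`InfiniteGalois.isOpen_iff_finite` or a similar statement), or: there is a finite extension `k'/k` in `W` with
`k'.fixingSubgroup ⊓ F0.fixingSubgroup ≤ H'` (`H` open in the subspace topology, Krull neighbourhoods), so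
`F = fixedField H' ≤ fixedField (k' ⊔ F0).fixingSubgroup = k' ⊔ F0` (Galois), and `k' ⊔ F0` is finite over `F0`.
See `Pool/Agent/Helper60/SL/FixLC.lean` for similar translations (`fixingSubgroupEquiv`).
-/

open IntermediateField

namespace Pool.Agent.Helper1.SG

/-- a compositum with a finite extension is finite -/
private theorem fin_of_le {k W : Type} [Field k] [Field W] [Algebra k W]
    (F0 F k' : IntermediateField k W) (hF : F0 ≤ F) [FiniteDimensional k k'] (hle : F ≤ k' ⊔ F0) :
    FiniteDimensional F0 (extendScalars hF) := by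
  classical
  have hfg : (Subalgebra.toSubmodule k'.toSubalgebra).FG :=
    Module.Finite.iff_fg.1 (show Module.Finite k k' from inferInstance)
  obtain ⟨S, hS⟩ := k'.fg_of_fg_toSubalgebra (Subalgebra.fg_of_fg_toSubmodule hfg)
  have hint : ∀ x ∈ (S : Set W), IsIntegral F0 x := by
    intro x hx
    have hxk : x ∈ k' := by
      rw [← hS]
      exact subset_adjoin k _ hx
    have h1 : IsIntegral k (⟨x, hxk⟩ : k') := Algebra.IsIntegral.isIntegral _
    have h2 : IsIntegral k x := h1.map k'.val
    exact h2.tower_top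
  have hfin : FiniteDimensional F0 (adjoin F0 (S : Set W)) := finiteDimensional_adjoin hint
  have hle2 : extendScalars hF ≤ adjoin F0 (S : Set W) := by
    intro x hx
    have hx' : x ∈ F := hx
    have h3 : k' ⊔ F0 ≤ (adjoin F0 (S : Set W)).restrictScalars k := by
      refine sup_le ?_ ?_
      · rw [← hS, adjoin_le_iff]
        intro y hy
        exact subset_adjoin F0 _ hy
      · intro y hy
        exact (adjoin F0 (S : Set W)).algebraMap_mem ⟨y, hy⟩
    exact h3 (hle hx')
  exact FiniteDimensional.of_injective (IntermediateField.inclusion hle2).toLinearMap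
    (IntermediateField.inclusion_injective hle2)

theorem exists_openF {k W : Type} [Field k] [Field W] [Algebra k W] [IsGalois k W]
    (F0 : IntermediateField k W) (H : Subgroup F0.fixingSubgroup)
    (hH : IsOpen (H : Set F0.fixingSubgroup)) :
    ∃ (F : IntermediateField k W) (hF : F0 ≤ F),
      FiniteDimensional F0 (extendScalars hF) ∧
      ∀ γ : W ≃ₐ[k] W, γ ∈ F.fixingSubgroup ↔ ∃ h : γ ∈ F0.fixingSubgroup, ⟨γ, h⟩ ∈ H := by
  classical
  let H' : Subgroup (W ≃ₐ[k] W) := H.map F0.fixingSubgroup.subtype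
  have hcl : IsClosed (H' : Set (W ≃ₐ[k] W)) := by
    have h1 : IsClosed (H : Set F0.fixingSubgroup) := Subgroup.isClosed_of_isOpen H hH
    have h2 : IsClosed (F0.fixingSubgroup : Set (W ≃ₐ[k] W)) :=
      InfiniteGalois.fixingSubgroup_isClosed F0
    have h3 := h2.isClosedEmbedding_subtypeVal.isClosedMap _ h1
    rw [Subgroup.coe_map]
    exact h3
  have hfix : (fixedField H').fixingSubgroup = H' :=
    InfiniteGalois.fixingSubgroup_fixedField ⟨H', hcl⟩
  have hH'le : H' ≤ F0.fixingSubgroup := by
    rintro _ ⟨x, _, rfl⟩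
    exact x.2
  have hF : F0 ≤ fixedField H' := (IntermediateField.le_iff_le H' F0).2 hH'le
  obtain ⟨U, hU, hUH⟩ := isOpen_induced_iff.1 hH
  have h1U : (1 : W ≃ₐ[k] W) ∈ U := by
    have : (1 : F0.fixingSubgroup) ∈ (Subtype.val ⁻¹' U : Set F0.fixingSubgroup) := by
      rw [hUH]
      exact H.one_mem
    exact this
  obtain ⟨k', hk', hk'U⟩ := (krullTopology_mem_nhds_one_iff k W U).1 (hU.mem_nhds h1U)
  have hsub : (k' ⊔ F0).fixingSubgroup ≤ H' := by
    rw [fixingSubgroup_sup]
    intro γ hγ
    have hγ1 : γ ∈ k'.fixingSubgroup := hγ.1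
    have hγ2 : γ ∈ F0.fixingSubgroup := hγ.2
    have h4 : (⟨γ, hγ2⟩ : F0.fixingSubgroup) ∈ (Subtype.val ⁻¹' U : Set F0.fixingSubgroup) :=
      hk'U hγ1
    rw [hUH] at h4
    exact ⟨⟨γ, hγ2⟩, h4, rfl⟩
  have hle : fixedField H' ≤ k' ⊔ F0 := by
    have h5 := fixedField_antitone (F := k) (E := W) hsub
    rwa [InfiniteGalois.fixedField_fixingSubgroup] at h5
  refine ⟨fixedField H', hF, fin_of_le F0 _ k' hF hle, ?_⟩
  intro γ
  rw [hfix]
  constructor
  · rintro ⟨x, hx, rfl⟩
    exact ⟨x.2, hx⟩
  · rintro ⟨h, hx⟩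
    exact ⟨⟨γ, h⟩, hx, rfl⟩

end Pool.Agent.Helper1.SG
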