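import Pool.Agent.Helper1.SG.Defs
import Pool.Agent.Helper1.SG.OpenF

set_option autoImplicit false

/-!
# SB-GB-15: the subgroup of `D_v` fixing finitely many elements

PROOF.  `H = {γ : (decField j).fixingSubgroup | ∀ θ ∈ T, s γ θ = θ}` is a subgroup, a finite intersection of the open
stabilisers `KSec.cont`; apply `exists_openF` (`W = kbar k Ω` is Galois over `k`: algebraic closure, characteristic 0).
-/

open MvPolynomial IntermediateField NumberField IsDedekindDomain
open scoped TensorProduct

namespace Pool.Agent.Helper1.SG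

open Pool.Agent.SB

theorem exists_subF {k : Type} [Field k] [NumberField k] {Ω : Type} [Field Ω] [Algebra k Ω]
    [IsAlgClosed Ω] {K : IntermediateField k Ω} (i : LDat K) (T : Finset i.E) :
    ∃ (F : IntermediateField k (kbar k Ω)) (hF : decField i.j ≤ F),
      FiniteDimensional (decField i.j) (extendScalars hF) ∧
      ∀ γ : kbar k Ω ≃ₐ[k] kbar k Ω, γ ∈ F.fixingSubgroup ↔
        ∃ h : γ ∈ (decField i.j).fixingSubgroup, ∀ θ ∈ T, i.s ⟨γ, h⟩ θ = θ := by
  classical
  have hgal : IsGalois k (kbar k Ω) := by
    have hcl : IsAlgClosure k (kbar k Ω) := inferInstance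
    exact inferInstance
  let H : Subgroup (decField i.j).fixingSubgroup :=
    { carrier := {γ | ∀ θ ∈ T, i.s γ θ = θ}
      mul_mem' := by
        intro a b ha hb θ hθ
        rw [map_mul, AlgEquiv.mul_apply, hb θ hθ, ha θ hθ]
      one_mem' := by
        intro θ _
        rw [map_one, AlgEquiv.one_apply]
      inv_mem' := by
        intro a ha θ hθ
        rw [map_inv]
        exact (AlgEquiv.symm_apply_eq (i.s a)).2 (ha θ hθ).symm }
  have hopen : IsOpen (H : Set (decField i.j).fixingSubgroup) := by
    have h1 : (H : Set (decField i.j).fixingSubgroup) =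
        ⋂ θ ∈ T, {γ : (decField i.j).fixingSubgroup | i.s γ θ = θ} := by
      ext γ
      simp only [Set.mem_iInter]
      exact Iff.rfl
    rw [h1]
    exact isOpen_biInter_finset fun θ _ => i.hs.cont θ
  obtain ⟨F, hF, hfin, hmem⟩ := exists_openF (decField i.j) H hopen
  exact ⟨F, hF, hfin, hmem⟩

end Pool.Agent.Helper1.SG
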