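import Pool.Agent.Helper1.SG.Ev
import Pool.Agent.Helper1.SG.StabZ
import Pool.Agent.Helper1.SG.SubF
import Pool.Agent.Helper79.SB.N0
import Pool.Agent.Helper79.SB.ET

set_option autoImplicit false

/-!
# SB-GB-16: the weight property at an index, SB-GB-17: the weight property of the limit pair

`weight_index`: `k1 = adjoin k {ζ, c 0, c 1, c 2}` (finite over `k`).  `weight` (N0) gives `S`, `exists_xring` (ET8; `x ≠ c m` because `x` is
transcendental) gives `e, g` with `Z = etField k (xring k k1 x c) ⊆ etCover k ξ e g`.  Let `i` be as in the statement.  `T = {x, y, c 0, c 1, c 2, ζ}` as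
elements of `i.E` (they are in `i.E`: `x, y` by hypothesis; the `c m`, `ζ` are in `Z ⊆ etCover ⊆ i.E`: `kbar_subset_etSet` or `k1 ⊆ xring ⊆ etSet`).  `exists_subF`
gives `F' ≥ decField j`, finite.  (1) `k1 ≤ F'`: every `γ ∈ F'.fixingSubgroup` fixes `ζ, c m`: `s γ (c m) = c m` and by `KSec.ind` it is the image of `γ (c m)`; so
`k1 ≤ fixedField F'.fixingSubgroup = F'` (infinite Galois correspondence, `InfiniteGalois.fixedField_fixingSubgroup`).  (2) `τ_i = i.τ` is in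
`F'.fixingSubgroup`: it is in `F.fixingSubgroup ≤ (decField j).fixingSubgroup` and `s τ` fixes `T` (`i.hτ'` and the hypotheses on `i.τ'`); and
`τ_i ∈ Iner F' p` (`tame.iner` for the roots of unity).  (3) Every `s γ`, `γ ∈ F'.fixingSubgroup`, extends to `u : Ω ≃ₐ[K] Ω` (`exists_ext`); `u` restricted to scalars `k`
fixes `xring` pointwise (`xring_fixed`: fixes `x` and `k1` because the elements of `k1 ≤ F'` are fixed by `γ`), so `Z` is stable (`etField_stable`).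
(4) `exists_resZ` with `G = F'.fixingSubgroup`, `s` restricted (`i.sF hF'`) gives `s'`; `IsSec`: `cont`: the stabiliser of `θ ∈ Z` is the
preimage of the open set of `KSec.cont` under the continuous inclusion; `ind`: from `KSec.ind`.  It fixes `x`, `y` (`(θ : Ω) = x`).
(5) `weight` gives `s' τ_i ω = ω` for `ω ∈ Z` with `ω ^ ℓ = x - c m`.  Every `ω : Ω` with `ω ^ ℓ = x - c m` is in `Z`: `root_mem_etSet` for
`u = x - c m`, `u, u⁻¹ ∈ xring`, `subset_adjoin`.  So `i.τ' ω = s τ_i ω = ω`.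
-/

open MvPolynomial IntermediateField NumberField IsDedekindDomain
open scoped TensorProduct

namespace Pool.Agent.Helper1.SG

open Pool.Agent.SB Pool.Agent.Helper60.SL Pool.Agent.Helper1.SR

section

variable {k : Type} [Field k] [NumberField k] {Ω : Type} [Field Ω] [Algebra k Ω] [IsAlgClosed Ω]
  {n : ℕ} (ξ : Fin (n + 1) → Ω) [Algebra.IsAlgebraic (funField k ξ) Ω] {ℓ : ℕ}

/-- the finite extension of `k` generated by finitely many algebraic elements -/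
private theorem kw_k1 {k : Type} [Field k] {Ω : Type} [Field Ω] [Algebra k Ω]
    (ζ : kbar k Ω) (c : Fin 3 → kbar k Ω) :
    ∃ k1 : IntermediateField k (kbar k Ω), FiniteDimensional k k1 ∧ ζ ∈ k1 ∧ (∀ m, c m ∈ k1) ∧
      ∀ F : IntermediateField k (kbar k Ω), ζ ∈ F → (∀ m, c m ∈ F) → k1 ≤ F := by
  refine ⟨IntermediateField.adjoin k ({ζ} ∪ Set.range c), ?_, ?_, ?_, ?_⟩
  · have h1 : Finite (({ζ} ∪ Set.range c : Set (kbar k Ω))) :=
      ((Set.finite_singleton ζ).union (Set.finite_range c)).to_subtype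
    exact IntermediateField.finiteDimensional_adjoin fun a _ =>
      (Algebra.IsAlgebraic.isAlgebraic (R := k) a).isIntegral
  · exact IntermediateField.subset_adjoin _ _ (Or.inl rfl)
  · exact fun m => IntermediateField.subset_adjoin _ _ (Or.inr ⟨m, rfl⟩)
  · intro F h1 h2
    rw [IntermediateField.adjoin_le_iff]
    rintro a (ha | ⟨m, rfl⟩)
    · rw [Set.mem_singleton_iff] at ha
      rw [ha]
      exact h1
    · exact h2 m

/-- a root of `x - c m` is in the field of the étale covers -/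
private theorem kw_root {k : Type} [Field k] [CharZero k] {Ω : Type} [Field Ω] [Algebra k Ω]
    [IsAlgClosed Ω] {ℓ : ℕ} (hℓ : ℓ.Prime) (k1 : IntermediateField k (kbar k Ω))
    (c : Fin 3 → kbar k Ω) (hc : ∀ m, c m ∈ k1) (x : Ω) (hx : ∀ m, x ≠ (c m : Ω)) (m : Fin 3)
    (ω : Ω) (hω : ω ^ ℓ = x - (c m : Ω)) : ω ∈ etField k (xring k k1 x c) := by
  refine IntermediateField.subset_adjoin k _ ?_
  refine root_mem_etSet k (xring k k1 x c) ℓ hℓ.pos (x - (c m : Ω)) ?_ ?_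
    (sub_ne_zero.2 (hx m)) ω hω
  · refine sub_mem ?_ ?_
    · exact Algebra.subset_adjoin (Or.inl (Or.inr rfl))
    · exact Algebra.subset_adjoin (Or.inl (Or.inl ⟨c m, hc m, rfl⟩))
  · exact Algebra.subset_adjoin (Or.inr ⟨m, rfl⟩)

theorem weight_index (hξ : ξ ≠ 0) (hℓ : ℓ.Prime) (ζ : kbar k Ω) (hζ : IsPrimitiveRoot ζ ℓ)
    (c : Fin 3 → kbar k Ω) (hc' : Function.Injective c) (x y : Ω) (hx : Transcendental k x)
    (hy : y ^ ℓ * (x - (c 1 : Ω)) = (x - (c 0 : Ω)) * (x - (c 2 : Ω))) :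
    ∃ (S : Finset (HeightOneSpectrum (𝓞 k))) (e : ℕ) (g : MvPolynomial (Fin (n + 1)) k),
      Adm k ξ e g ∧ ∀ i : PDat (funField k ξ) ℓ, i.v ∉ S → etCover k ξ e g ≤ i.E →
        x ∈ i.E → y ∈ i.E → i.τ' x = x → i.τ' y = y → (∀ m, i.τ' (c m : Ω) = (c m : Ω)) →
        i.τ' (ζ : Ω) = (ζ : Ω) →
        ∀ (m : Fin 3) (ω : Ω), ω ^ ℓ = x - (c m : Ω) → i.τ' ω = ω := by
  have hxc : ∀ m, x ≠ (c m : Ω) := by
    intro m h
    apply hx
    rw [h]
    exact (mem_algebraicClosure_iff).1 (c m).2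
  obtain ⟨k1, hfd, hζ1, hc1, hmin⟩ := kw_k1 ζ c
  obtain ⟨S, hS⟩ := weight k (Ω := Ω) ℓ hℓ k1 ζ hζ hζ1 c hc1 hc'
  obtain ⟨e, g, hadm, hcov⟩ := exists_xring k ξ hξ k1 x c hxc
  refine ⟨S, e, g, hadm, ?_⟩
  intro i hv hE hxE hyE hτx hτy hτc hτζ m ω hω
  have hZE : ∀ z ∈ etField k (xring k k1 x c), z ∈ i.E := fun z hz => hE (hcov z hz)
  have hbarE : ∀ a : kbar k Ω, (a : Ω) ∈ i.E := fun a =>
    hZE _ (IntermediateField.subset_adjoin k _ (kbar_subset_etSet k (xring k k1 x c) a))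
  classical
  obtain ⟨F, hF, hfin, hmem⟩ := exists_subF i.toLDat
    ({⟨x, hxE⟩, ⟨y, hyE⟩, ⟨(ζ : Ω), hbarE ζ⟩, ⟨(c 0 : Ω), hbarE (c 0)⟩, ⟨(c 1 : Ω), hbarE (c 1)⟩,
      ⟨(c 2 : Ω), hbarE (c 2)⟩} : Finset i.E)
  have hmem1 : ∀ (γ : F.fixingSubgroup) (z : Ω) (hz : z ∈ i.E),
      (z = x ∨ z = y ∨ z = (ζ : Ω) ∨ ∃ m, z = (c m : Ω)) →
      ((i.toLDat.sF hF γ ⟨z, hz⟩ : i.E) : Ω) = z := by
    intro γ z hz hzz
    obtain ⟨h1, h2⟩ := (hmem γ).1 γ.2
    have h3 : (⟨z, hz⟩ : i.E) ∈ ({⟨x, hxE⟩, ⟨y, hyE⟩, ⟨(ζ : Ω), hbarE ζ⟩, ⟨(c 0 : Ω), hbarE (c 0)⟩,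
        ⟨(c 1 : Ω), hbarE (c 1)⟩, ⟨(c 2 : Ω), hbarE (c 2)⟩} : Finset i.E) := by
      simp only [Finset.mem_insert, Finset.mem_singleton, Subtype.mk.injEq]
      rcases hzz with h | h | h | ⟨m', h⟩
      · exact Or.inl h
      · exact Or.inr (Or.inl h)
      · exact Or.inr (Or.inr (Or.inl h))
      · fin_cases m'
        · exact Or.inr (Or.inr (Or.inr (Or.inl h)))
        · exact Or.inr (Or.inr (Or.inr (Or.inr (Or.inl h))))
        · exact Or.inr (Or.inr (Or.inr (Or.inr (Or.inr h))))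
    exact congrArg Subtype.val (h2 _ h3)
  have hind : ∀ (γ : F.fixingSubgroup) (a : kbar k Ω) (ha : (a : Ω) ∈ i.E),
      ((i.toLDat.sF hF γ ⟨(a : Ω), ha⟩ : i.E) : Ω) =
        (((γ : kbar k Ω ≃ₐ[k] kbar k Ω) a : kbar k Ω) : Ω) := by
    intro γ a ha
    exact i.hs.ind (Subgroup.inclusion (IntermediateField.fixingSubgroup_le hF) γ) a ha
  have hk1F : k1 ≤ F := by
    have h1 : ∀ a : kbar k Ω, ((a : Ω) = (ζ : Ω) ∨ ∃ m, (a : Ω) = (c m : Ω)) → a ∈ F := by
      intro a ha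
      rw [← InfiniteGalois.fixedField_fixingSubgroup F, IntermediateField.mem_fixedField_iff]
      intro γ hγ
      have h2 := hmem1 ⟨γ, hγ⟩ (a : Ω) (hbarE a) (Or.inr (Or.inr ha))
      rw [hind] at h2
      exact Subtype.ext h2
    exact hmin F (h1 ζ (Or.inl rfl)) fun m => h1 (c m) (Or.inr ⟨m, rfl⟩)
  have hτF : (i.τ : kbar k Ω ≃ₐ[k] kbar k Ω) ∈ F.fixingSubgroup := by
    rw [hmem]
    refine ⟨IntermediateField.fixingSubgroup_le i.hF i.τ.2, ?_⟩
    intro θ hθ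
    apply Subtype.ext
    have h1 : i.τ' (θ : Ω) = ((i.s ⟨(i.τ : kbar k Ω ≃ₐ[k] kbar k Ω),
        IntermediateField.fixingSubgroup_le i.hF i.τ.2⟩ θ : i.E) : Ω) := i.hτ' θ
    rw [← h1]
    simp only [Finset.mem_insert, Finset.mem_singleton] at hθ
    rcases hθ with rfl | rfl | rfl | rfl | rfl | rfl
    · exact hτx
    · exact hτy
    · exact hτζ
    · exact hτc 0
    · exact hτc 1
    · exact hτc 2
  have hst : ∀ (γ : F.fixingSubgroup) (z : Ω) (_ : z ∈ etField k (xring k k1 x c))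
      (h : z ∈ i.E), ((i.toLDat.sF hF γ ⟨z, h⟩ : i.E) : Ω) ∈ etField k (xring k k1 x c) := by
    intro γ z hz h
    obtain ⟨u, hu⟩ := exists_ext i.E (i.toLDat.sF hF γ)
    have h1 := hu ⟨z, h⟩
    rw [← h1]
    have h2 : ∀ t ∈ xring k k1 x c, (u.restrictScalars k) t = t := by
      refine xring_fixed k k1 x c hc1 (u.restrictScalars k) ?_ ?_
      · have h3 := hu ⟨x, hxE⟩
        rw [hmem1 γ x hxE (Or.inl rfl)] at h3
        exact h3
      · intro a ha
        have h3 := hu ⟨(a : Ω), hbarE a⟩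
        rw [hind] at h3
        have h4 : (γ : kbar k Ω ≃ₐ[k] kbar k Ω) a = a := γ.2 ⟨a, hk1F ha⟩
        rw [h4] at h3
        exact h3
    exact etField_stable k (xring k k1 x c) (u.restrictScalars k) h2 z hz
  obtain ⟨s', hs'⟩ := exists_resZ i.E (etField k (xring k k1 x c)) hZE (i.toLDat.sF hF) hst
  have hsec : IsSec k F.fixingSubgroup (etField k (xring k k1 x c)) s' := by
    refine ⟨?_, ?_⟩
    · intro θ
      have h1 := i.hs.cont ⟨(θ : Ω), hZE _ θ.2⟩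
      have h2 : Continuous (Subgroup.inclusion (IntermediateField.fixingSubgroup_le hF)) :=
        continuous_inclusion (IntermediateField.fixingSubgroup_le hF)
      have h3 := h1.preimage h2
      convert h3 using 1
      ext γ
      simp only [Set.mem_ofPred_eq, Set.mem_preimage]
      have h4 : ((s' γ θ : etField k (xring k k1 x c)) : Ω) =
          ((i.s (Subgroup.inclusion (IntermediateField.fixingSubgroup_le hF) γ)
            ⟨(θ : Ω), hZE _ θ.2⟩ : i.E) : Ω) := hs' γ θ θ.2 (hZE _ θ.2)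
      constructor
      · intro h5
        apply Subtype.ext
        rw [← h4, h5]
      · intro h5
        apply Subtype.ext
        rw [h4, h5]
    · intro γ θ h
      rw [hs' γ (θ : Ω) h (hZE _ h)]
      exact hind γ θ (hZE _ h)
  have hfix : ∀ (γ : F.fixingSubgroup) (θ : etField k (xring k k1 x c)),
      ((θ : Ω) = x ∨ (θ : Ω) = y) → s' γ θ = θ := by
    intro γ θ hθ
    apply Subtype.ext
    rw [hs' γ (θ : Ω) θ.2 (hZE _ θ.2)]
    refine hmem1 γ (θ : Ω) (hZE _ θ.2) ?_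
    rcases hθ with h | h
    · exact Or.inl h
    · exact Or.inr (Or.inl h)
  have hωZ := kw_root hℓ k1 c hc1 x hxc m ω hω
  have hfinal := hS i.v hv i.p i.hp i.hpv i.j F hF hk1F hfin x y hx hy s' hsec hfix
    ⟨(i.τ : kbar k Ω ≃ₐ[k] kbar k Ω), hτF⟩ ⟨hτF, i.tame.iner.2⟩ m ⟨ω, hωZ⟩ hω
  have h6 := hs' ⟨(i.τ : kbar k Ω ≃ₐ[k] kbar k Ω), hτF⟩ ω hωZ (hZE _ hωZ)
  rw [hfinal] at h6
  have h7 := i.hτ' ⟨ω, hZE _ hωZ⟩
  exact h7.trans h6.symm

end

end Pool.Agent.Helper1.SG
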