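import Pool.Agent.Helper1.SG.KW
import Pool.Agent.Helper1.SG.KP

set_option autoImplicit false

/-!
# SB-GB-17: the weight property of the limit pair

PROOF.  Let `x, c, y` be as in `KWeight`, `m, ω` with `ω ^ ℓ = x - c m`.  The `c m` are elements of `kbar k Ω`; let `ζ ∈ kbar k Ω` be a
primitive `ℓ`-th root of unity (`HasEnoughRootsOfUnity` / `IsAlgClosed.exists_..primitive root`, characteristic 0).
`weight_index` gives `S, e, g`.  Take an index `i` with `i.v ∉ S` (`h.pl`), `etCover k ξ e g ≤ i.E` (`hcov`), `x, y, ω ∈ i.M ≤ i.E` and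
`i.τ' = τ` on `x, y, ω, c m, ζ` (`conv_ev` for a finite extension of `K` containing `x, y, ω`, and `h.cτ`).  `τ x = x`, `τ y = y` by hypothesis,
`τ (c m) = c m`, `τ ζ = ζ` by `bar_lim`.  So `τ ω = i.τ' ω = ω`.
-/

open MvPolynomial IntermediateField NumberField IsDedekindDomain
open scoped TensorProduct

namespace Pool.Agent.Helper1.SG

open Pool.Agent.SB Pool.Agent.Helper60.SL Pool.Agent.Helper1.SR

theorem kweight_of_conv {k : Type} [Field k] [NumberField k] {Ω : Type} [Field Ω]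
    [Algebra k Ω] [IsAlgClosed Ω] {n : ℕ} (ξ : Fin (n + 1) → Ω)
    [Algebra.IsAlgebraic (funField k ξ) Ω] {ℓ : ℕ} (hξ : ξ ≠ 0) (hℓ : ℓ.Prime)
    {U : Ultrafilter (PDat (funField k ξ) ℓ)} {σ τ : Ω ≃ₐ[funField k ξ] Ω} (h : Conv U σ τ)
    (hcov : ∀ (e : ℕ) (g : MvPolynomial (Fin (n + 1)) k), Adm k ξ e g →
      ∀ᶠ i in (U : Filter (PDat (funField k ξ) ℓ)), etCover k ξ e g ≤ i.E) :
    KWeight k ℓ σ τ := by
  classical
  have hΩ : CharZero Ω := charZero_of_injective_algebraMap (algebraMap k Ω).injective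
  -- a primitive root of unity
  have hroot : ∃ z : Ω, IsPrimitiveRoot z ℓ := by
    have hne : NeZero (ℓ : Ω) := ⟨Nat.cast_ne_zero.2 hℓ.ne_zero⟩
    obtain ⟨z, hz⟩ := IsAlgClosed.exists_root (Polynomial.cyclotomic ℓ Ω)
      (by rw [Polynomial.degree_cyclotomic]; exact_mod_cast (Nat.totient_pos.2 hℓ.pos).ne')
    exact ⟨z, Polynomial.isRoot_cyclotomic_iff.1 hz⟩
  obtain ⟨z, hz⟩ := hroot
  have hzalg : IsAlgebraic k z := by
    refine IsIntegral.isAlgebraic (IsIntegral.of_pow hℓ.pos ?_)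
    rw [hz.pow_eq_one]
    exact isIntegral_one
  obtain ⟨ζ, hζz⟩ : ∃ ζ : kbar k Ω, (ζ : Ω) = z := ⟨⟨z, (mem_algebraicClosure_iff).2 hzalg⟩, rfl⟩
  have hζ : IsPrimitiveRoot ζ ℓ := by
    have h1 : IsPrimitiveRoot (algebraMap (kbar k Ω) Ω ζ) ℓ := by
      change IsPrimitiveRoot (ζ : Ω) ℓ
      rw [hζz]
      exact hz
    exact h1.of_map_of_injective (algebraMap (kbar k Ω) Ω).injective
  intro x c y hx hσx hτx hcalg hσc hcinj hy hτy m ω hω
  obtain ⟨S, e, g, hadm, H⟩ := weight_index ξ hξ hℓ ζ hζ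
    (fun i => ⟨c i, (mem_algebraicClosure_iff).2 (hcalg i)⟩)
    (fun i j hij => hcinj (congrArg Subtype.val hij)) x y hx hy
  obtain ⟨T, hT⟩ : ∃ T : Finset Ω, T = ({x, y, ω, z, c 0, c 1, c 2} : Finset Ω) := ⟨_, rfl⟩
  have hfd : FiniteDimensional (funField k ξ) (IntermediateField.adjoin (funField k ξ) (T : Set Ω)) := by
    have : Finite (T : Set Ω) := T.finite_toSet
    exact IntermediateField.finiteDimensional_adjoin (K := funField k ξ) fun x _ =>
      Algebra.IsIntegral.isIntegral (R := funField k ξ) x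
  have hmem : ∀ u ∈ T, u ∈ IntermediateField.adjoin (funField k ξ) (T : Set Ω) := fun u hu =>
    IntermediateField.subset_adjoin _ _ (Finset.mem_coe.2 hu)
  obtain ⟨i, hv, hle, hM, hag⟩ := ((h.pl S).and ((hcov e g hadm).and
    (conv_ev h (IntermediateField.adjoin (funField k ξ) (T : Set Ω))))).exists
  have hcT : ∀ j : Fin 3, c j ∈ T := by
    intro j
    rw [hT]
    fin_cases j <;> simp
  have hxT : x ∈ T := by rw [hT]; simp
  have hyT : y ∈ T := by rw [hT]; simp
  have hωT : ω ∈ T := by rw [hT]; simp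
  have hzT : z ∈ T := by rw [hT]; simp
  have h2 := H i hv hle (i.hM (hM (hmem x hxT))) (i.hM (hM (hmem y hyT)))
    (by rw [(hag x (hmem x hxT)).2, hτx]) (by rw [(hag y (hmem y hyT)).2, hτy])
    (fun j => by
      change i.τ' (c j) = c j
      rw [(hag (c j) (hmem _ (hcT j))).2, bar_lim h (c j) (hcalg j)])
    (by rw [hζz, (hag z (hmem z hzT)).2, bar_lim h z hzalg]) m ω hω
  rw [← (hag ω (hmem ω hωT)).2]
  exact h2

end Pool.Agent.Helper1.SG
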