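import Pool.Agent.Helper1.SG.Main
import Pool.Agent.Helper82.SG.ObClass

set_option autoImplicit false

/-!
# PROJECT SB, block GB: `local_lift`
-/

open MvPolynomial IntermediateField NumberField IsDedekindDomain
open scoped TensorProduct

namespace Pool.Agent.SB

open Pool.Agent.Helper8.BR Pool.Agent.Helper1.SR

/-- (GB) block B: outside a finite set of places every local section over `K_U`, `U` small,
lifts to `Ghat D` -/
theorem local_lift (k : Type) [Field k] [NumberField k] {Ω : Type} [Field Ω] [Algebra k Ω]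
    [IsAlgClosed Ω] {n : ℕ} (ξ : Fin (n + 1) → Ω)
    (hξ : ξ ≠ 0) [Algebra.IsAlgebraic (funField k ξ) Ω] (α : BrClass k ξ)
    (A : Type) [Ring A] [Algebra (funField k ξ) A] [IsAzumaya (funField k ξ) A]
    (hA : GenRep k α A) (D : Datum (funField k ξ) Ω A) :
    ∃ (e : ℕ) (g : MvPolynomial (Fin (n + 1)) k), Adm k ξ e g ∧ D.E ≤ etCover k ξ e g ∧
      ∃ S : Finset (HeightOneSpectrum (𝓞 k)), ∀ v ∉ S,
      ∀ (j : kbar k Ω →ₐ[k] AlgebraicClosure (v.adicCompletion k))
        (E : IntermediateField (funField k ξ) Ω), etCover k ξ e g ≤ E →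
        ∀ (s : (decField j).fixingSubgroup →* (E ≃ₐ[funField k ξ] E)),
        KSec k (funField k ξ) (decField j).fixingSubgroup E s →
        ∀ h : (decField j).fixingSubgroup →* (D.E ≃ₐ[funField k ξ] D.E),
          (∀ (γ : (decField j).fixingSubgroup) (θ : Ω) (h1 : θ ∈ D.E) (h2 : θ ∈ E),
            ((h γ ⟨θ, h1⟩ : D.E) : Ω) = ((s γ ⟨θ, h2⟩ : E) : Ω)) →
          ∃ H : (decField j).fixingSubgroup →* Ghat D,
            IsOpen (H.ker : Set (decField j).fixingSubgroup) ∧ ∀ γ, (H γ).g = h γ :=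
  Pool.Agent.Helper1.SG.local_lift_core ξ hξ A D
    fun V hV σ τ hσ hτ hτ1 => ob_class k ξ hξ α A hA D V hV σ τ hσ hτ hτ1

end Pool.Agent.SB
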