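import Mathlib

set_option autoImplicit false

/-!
# SB-GB-01: an ultrafilter at a fixed prime (pure filter theory)

PROOF.  (1) Claim: there is `ℓ ∈ Λ` with `(T ℓ t).Nonempty` for all `t`.  If not, choose for every
`ℓ ∈ Λ` an index `t_ℓ` with `T ℓ (t_ℓ) = ∅`; by induction on the finite set `Λ` and `hdir` there is
`t` with `T ℓ t ⊆ T ℓ (t_ℓ)` for all `ℓ ∈ Λ` (start with any `t`, `Nonempty ι`), so `T ℓ t = ∅` for all
`ℓ ∈ Λ`, contradiction to `hne t`.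
(2) For this `ℓ` the sets `T ℓ t` form a filter basis (`hdir`), or: the family
`Filter.principal (T ℓ t)` is directed, so `⨅ t, Filter.principal (T ℓ t)` is not `⊥`
(`Filter.iInf_neBot_of_directed`), and `Ultrafilter.of` gives `U`.
-/

namespace Pool.Agent.Helper1.SG

theorem exists_ultra {ι : Type} [Nonempty ι] (Λ : Finset ℕ) (X : ℕ → Type)
    (T : ∀ ℓ : ℕ, ι → Set (X ℓ)) (hne : ∀ t, ∃ ℓ ∈ Λ, (T ℓ t).Nonempty)
    (hdir : ∀ t1 t2, ∃ t3, ∀ ℓ ∈ Λ, T ℓ t3 ⊆ T ℓ t1 ∩ T ℓ t2) :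
    ∃ ℓ ∈ Λ, ∃ U : Ultrafilter (X ℓ), ∀ t, T ℓ t ∈ U := by
  classical
  have h1 : ∃ ℓ ∈ Λ, ∀ t, (T ℓ t).Nonempty := by
    by_contra h
    push Not at h
    have key : ∀ S : Finset ℕ, S ⊆ Λ → ∃ t, ∀ ℓ ∈ S, T ℓ t = ∅ := by
      intro S
      induction S using Finset.induction_on with
      | empty => intro _; exact ⟨Classical.arbitrary ι, by simp⟩
      | insert a S ha ih =>
        intro hS
        obtain ⟨t1, ht1⟩ := ih (fun x hx => hS (Finset.mem_insert_of_mem hx))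
        obtain ⟨t2, ht2⟩ := h a (hS (Finset.mem_insert_self a S))
        obtain ⟨t3, ht3⟩ := hdir t1 t2
        refine ⟨t3, fun ℓ hℓ => ?_⟩
        have h3 := ht3 ℓ (hS hℓ)
        rcases Finset.mem_insert.1 hℓ with rfl | hℓ'
        · exact Set.subset_empty_iff.1 (fun x hx => ht2 ▸ (h3 hx).2)
        · exact Set.subset_empty_iff.1 (fun x hx => ht1 ℓ hℓ' ▸ (h3 hx).1)
    obtain ⟨t, ht⟩ := key Λ (Finset.Subset.refl Λ)
    obtain ⟨ℓ, hℓ, hx⟩ := hne t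
    rw [ht ℓ hℓ] at hx
    exact Set.not_nonempty_empty hx
  obtain ⟨ℓ, hℓ, hx⟩ := h1
  have hd : Directed (· ≥ ·) (fun t => Filter.principal (T ℓ t)) := by
    intro t1 t2
    obtain ⟨t3, ht3⟩ := hdir t1 t2
    exact ⟨t3, Filter.principal_mono.2 (fun x hx' => (ht3 ℓ hℓ hx').1),
      Filter.principal_mono.2 (fun x hx' => (ht3 ℓ hℓ hx').2)⟩
  have hb : Filter.NeBot (⨅ t, Filter.principal (T ℓ t)) :=
    Filter.iInf_neBot_of_directed' hd (fun t => Filter.principal_neBot_iff.2 (hx t))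
  refine ⟨ℓ, hℓ, Ultrafilter.of (⨅ t, Filter.principal (T ℓ t)), fun t => ?_⟩
  have h2 : (Ultrafilter.of (⨅ t, Filter.principal (T ℓ t)) : Filter (X ℓ)) ≤ Filter.principal (T ℓ t) :=
    (Ultrafilter.of_le _).trans (iInf_le _ t)
  exact Filter.le_principal_iff.1 h2

end Pool.Agent.Helper1.SG
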