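import Pool.Agent.Helper1.SG.MkP
import Pool.Agent.Helper1.SG.Ult
import Pool.Agent.Helper1.SG.KWL
import Pool.Agent.Helper1.SG.Contra
import Pool.Agent.Helper79.SG.V9

set_option autoImplicit false

/-!
# SB-GB-18: `local_lift` from the limit pair

The hypothesis `hR` is `ob_class` (block P).
PROOF.  Suppose not.  Index type `ι` = triples (`M0` finite dimensional over `K`, `(e, g)` admissible, `S` a finite set of places),
nonempty (`exists_normal` or `exists_etCover`).  `Λ = D.d.primeFactors`, `X ℓ = PDat K ℓ`,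
`T ℓ (M0, e, g, S) = {i | NoLift D i ∧ M0 ≤ i.M ∧ etCover k ξ e g ≤ i.E ∧ i.v ∉ S}`.
`hne`: given `(M0, e, g, S)`: `M` finite normal over `K` containing `M0 ⊔ D.E` (`exists_normal_fin`), `exists_etCover` gives `e', g'` with
`M ≤ etCover e' g'`; for the product form `(e + e', g * g')` `etCover e g ≤` and `etCover e' g' ≤` (`etCover_mul`, for the second one commute).  By
assumption (the negation for the product form and `S`) there are `v ∉ S, j, E, s, h` without lift; `i0 = ⟨v, j, E, s, hs⟩`; `exists_PDat`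
gives `ℓ`, `i`.  `hdir`: `(M1 ⊔ M2, e1 + e2, g1 * g2, S1 ∪ S2)`.  `exists_ultra` gives `ℓ`, `U`.  `exists_lim` gives `σ, τ` for `i.σ'`, `i.τ'`; `Conv`.
`kpair_of_conv`, `kweight_of_conv`, `kpair_lifts` (V9, with `hR`) give `a, b, N`; `no_lift_contra`.
-/

open MvPolynomial IntermediateField NumberField IsDedekindDomain
open scoped TensorProduct

namespace Pool.Agent.Helper1.SG

open Pool.Agent.SB Pool.Agent.Helper60.SL Pool.Agent.Helper1.SR

theorem local_lift_core {k : Type} [Field k] [NumberField k] {Ω : Type} [Field Ω]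
    [Algebra k Ω] [IsAlgClosed Ω] {n : ℕ} (ξ : Fin (n + 1) → Ω)
    (hξ : ξ ≠ 0) [Algebra.IsAlgebraic (funField k ξ) Ω]
    (A : Type) [Ring A] [Algebra (funField k ξ) A] [IsAzumaya (funField k ξ) A]
    (D : Datum (funField k ξ) Ω A)
    (hR : ∀ V : ValuationSubring Ω, (∀ a : Ω, IsAlgebraic k a → a ∈ V) →
      ∀ σ τ : Ω ≃ₐ[funField k ξ] Ω, (∀ x, σ x ∈ V ↔ x ∈ V) → (∀ x, τ x ∈ V ↔ x ∈ V) →
      (∀ x ∈ V, V.valuation (τ x - x) < 1) →
      ∃ (E1 : IntermediateField (funField k ξ) Ω) (n : ℕ),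
        FiniteDimensional (funField k ξ) E1 ∧ n ≠ 0 ∧ ∀ q : ℕ,
      (∀ x ∈ E1, (σ * τ * σ⁻¹) x = (τ ^ q) x) → (∀ ζ : Ω, ζ ^ n = 1 → σ ζ = ζ ^ q) →
      OB D (AlgEquiv.restrictNormalHom D.E σ) (AlgEquiv.restrictNormalHom D.E τ) q) :
    ∃ (e : ℕ) (g : MvPolynomial (Fin (n + 1)) k), Adm k ξ e g ∧ D.E ≤ etCover k ξ e g ∧
      ∃ S : Finset (HeightOneSpectrum (𝓞 k)), ∀ v ∉ S,
      ∀ (j : kbar k Ω →ₐ[k] AlgebraicClosure (v.adicCompletion k))
        (E : IntermediateField (funField k ξ) Ω), etCover k ξ e g ≤ E →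
        ∀ (s : (decField j).fixingSubgroup →* (E ≃ₐ[funField k ξ] E)),
        KSec k (funField k ξ) (decField j).fixingSubgroup E s →
        ∀ h : (decField j).fixingSubgroup →* (D.E ≃ₐ[funField k ξ] D.E),
          (∀ (γ : (decField j).fixingSubgroup) (θ : Ω) (h1 : θ ∈ D.E) (h2 : θ ∈ E),
            ((h γ ⟨θ, h1⟩ : D.E) : Ω) = ((s γ ⟨θ, h2⟩ : E) : Ω)) →
          ∃ H : (decField j).fixingSubgroup →* Ghat D,
            IsOpen (H.ker : Set (decField j).fixingSubgroup) ∧ ∀ γ, (H γ).g = h γ := by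
  by_contra hcon
  have hcz : CharZero (funField k ξ) := charZero_of_injective_algebraMap (algebraMap k _).injective
  -- the bad data
  have hbad : ∀ (e : ℕ) (g : MvPolynomial (Fin (n + 1)) k), Adm k ξ e g →
      D.E ≤ etCover k ξ e g → ∀ S : Finset (HeightOneSpectrum (𝓞 k)),
      ∃ i : LDat (funField k ξ), i.v ∉ S ∧ etCover k ξ e g ≤ i.E ∧
        ∃ h : (decField i.j).fixingSubgroup →* (D.E ≃ₐ[funField k ξ] D.E),
          (∀ (γ : (decField i.j).fixingSubgroup) (θ : Ω) (h1 : θ ∈ D.E) (h2 : θ ∈ i.E),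
            ((h γ ⟨θ, h1⟩ : D.E) : Ω) = ((i.s γ ⟨θ, h2⟩ : i.E) : Ω)) ∧
          ¬ ∃ H : (decField i.j).fixingSubgroup →* Ghat D,
            IsOpen (H.ker : Set (decField i.j).fixingSubgroup) ∧ ∀ γ, (H γ).g = h γ := by
    intro e g hadm hD S
    by_contra hc
    apply hcon
    refine ⟨e, g, hadm, hD, S, fun v hv j E hE s hs h hcomp => ?_⟩
    by_contra hno
    exact hc ⟨⟨v, j, E, s, hs⟩, hv, hE, h, hcomp, hno⟩
  -- the index type
  let ι : Type := {M : IntermediateField (funField k ξ) Ω // FiniteDimensional (funField k ξ) M} ×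
    {p : ℕ × MvPolynomial (Fin (n + 1)) k // Adm k ξ p.1 p.2} ×
    Finset (HeightOneSpectrum (𝓞 k))
  let T : ∀ ℓ : ℕ, ι → Set (PDat (funField k ξ) ℓ) := fun ℓ t =>
    {i | NoLift D i ∧ t.1.1 ≤ i.M ∧ etCover k ξ t.2.1.1.1 t.2.1.1.2 ≤ i.E ∧ i.v ∉ t.2.2}
  have hne0 : Nonempty ι := by
    obtain ⟨e, g, hadm, _⟩ := exists_normal k ξ hξ
    exact ⟨⟨⊥, inferInstance⟩, ⟨(e, g), hadm⟩, ∅⟩
  have hne : ∀ t : ι, ∃ ℓ ∈ D.d.primeFactors, (T ℓ t).Nonempty := by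
    rintro ⟨⟨M0, hM0⟩, ⟨⟨e, g⟩, hadm⟩, S⟩
    have hfin1 : FiniteDimensional (funField k ξ) (M0 ⊔ D.E : IntermediateField (funField k ξ) Ω) :=
      IntermediateField.finiteDimensional_sup _ _
    obtain ⟨M, hM, hMfin, hMn⟩ := exists_normal_fin (K := funField k ξ) (M0 ⊔ D.E)
    obtain ⟨e', g', hadm', hM'⟩ := exists_etCover k ξ hξ M
    have hc1 : etCover k ξ e g ≤ etCover k ξ (e + e') (g * g') := etCover_mul k hadm hadm'
    have hc2 : etCover k ξ e' g' ≤ etCover k ξ (e + e') (g * g') := by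
      rw [add_comm, mul_comm]
      exact etCover_mul k hadm' hadm
    have hDE : D.E ≤ M := le_sup_right.trans hM
    obtain ⟨i0, hv, hE, h, hcomp, hno⟩ := hbad (e + e') (g * g') (hadm.mul k hadm')
      ((hDE.trans hM').trans hc2) S
    obtain ⟨ℓ, hℓ, hℓd, i, hi0, hiM, hnl⟩ := exists_PDat D i0 M hDE ((hM'.trans hc2).trans hE) h
      hcomp hno
    refine ⟨ℓ, Nat.mem_primeFactors.2 ⟨hℓ, hℓd, D.hd⟩, i, hnl, ?_, ?_, ?_⟩
    · rw [hiM]
      exact le_sup_left.trans hM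
    · change etCover k ξ e g ≤ i.toLDat.E
      rw [hi0]
      exact hc1.trans hE
    · change i.toLDat.v ∉ S
      rw [hi0]
      exact hv
  have hdir : ∀ t1 t2 : ι, ∃ t3, ∀ ℓ ∈ D.d.primeFactors, T ℓ t3 ⊆ T ℓ t1 ∩ T ℓ t2 := by
    rintro ⟨⟨M1, hM1⟩, ⟨⟨e1, g1⟩, hadm1⟩, S1⟩ ⟨⟨M2, hM2⟩, ⟨⟨e2, g2⟩, hadm2⟩, S2⟩
    classical
    have hc1 : etCover k ξ e1 g1 ≤ etCover k ξ (e1 + e2) (g1 * g2) := etCover_mul k hadm1 hadm2
    have hc2 : etCover k ξ e2 g2 ≤ etCover k ξ (e1 + e2) (g1 * g2) := by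
      rw [add_comm, mul_comm]
      exact etCover_mul k hadm2 hadm1
    refine ⟨⟨⟨M1 ⊔ M2, IntermediateField.finiteDimensional_sup _ _⟩,
      ⟨(e1 + e2, g1 * g2), hadm1.mul k hadm2⟩, S1 ∪ S2⟩, ?_⟩
    rintro ℓ _ i ⟨h1, h2, h3, h4⟩
    have h4' : i.v ∉ S1 ∪ S2 := h4
    rw [Finset.mem_union, not_or] at h4'
    exact ⟨⟨h1, le_sup_left.trans h2, hc1.trans h3, h4'.1⟩,
      ⟨h1, le_sup_right.trans h2, hc2.trans h3, h4'.2⟩⟩
  obtain ⟨ℓ, hℓ, U, hU⟩ := exists_ultra D.d.primeFactors (fun ℓ => PDat (funField k ξ) ℓ) T hne hdir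
  have hℓp : ℓ.Prime := Nat.prime_of_mem_primeFactors hℓ
  obtain ⟨σ, hσ⟩ := exists_lim U (fun i => i.σ')
  obtain ⟨τ, hτ⟩ := exists_lim U (fun i => i.τ')
  obtain ⟨e0, g0, hadm0, _⟩ := exists_normal k ξ hξ
  have hC : Conv U σ τ := by
    refine ⟨fun M0 hM0 => ?_, fun S => ?_, hσ, hτ⟩
    · exact Filter.mem_of_superset (hU ⟨⟨M0, hM0⟩, ⟨(e0, g0), hadm0⟩, ∅⟩) fun i hi => hi.2.1
    · exact Filter.mem_of_superset (hU ⟨⟨⊥, inferInstance⟩, ⟨(e0, g0), hadm0⟩, S⟩)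
        fun i hi => hi.2.2.2
  have hno : ∀ᶠ i in (U : Filter (PDat (funField k ξ) ℓ)), NoLift D i :=
    Filter.mem_of_superset (hU ⟨⟨⊥, inferInstance⟩, ⟨(e0, g0), hadm0⟩, ∅⟩) fun i hi => hi.1
  have hcov : ∀ (e : ℕ) (g : MvPolynomial (Fin (n + 1)) k), Adm k ξ e g →
      ∀ᶠ i in (U : Filter (PDat (funField k ξ) ℓ)), etCover k ξ e g ≤ i.E := fun e g hadm =>
    Filter.mem_of_superset (hU ⟨⟨⊥, inferInstance⟩, ⟨(e, g), hadm⟩, ∅⟩) fun i hi => hi.2.2.1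
  obtain ⟨a, b, N, ha, hb, _, _, hq⟩ := kpair_lifts k D hR hℓp (kpair_of_conv hℓp hC)
    (kweight_of_conv ξ hξ hℓp hC hcov)
  exact no_lift_contra hℓp D hC hno a b N ha hb hq

end Pool.Agent.Helper1.SG
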