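import Pool.Agent.Helper1.SG.OpenF

set_option autoImplicit false

/-!
# SB-GB-05: the fixed field of a Sylow subgroup

PROOF.  Let `P` be a Sylow `ℓ`-subgroup of the finite group `r.range`, `H = {γ | r γ ∈ P}`
(`(P.map r.range.subtype).comap r`), an open subgroup (it contains `r.ker`), of index
`[r.range : P]`, prime to `ℓ` (`Sylow.not_dvd_index`; `Subgroup.index_comap`...).  `exists_openF` gives `F`,
and `F.fixingSubgroup` corresponds to `H`: `F.fixingSubgroup.subgroupOf F0.fixingSubgroup = H`.  For `γ` in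
`F.fixingSubgroup` the element `r γ` is in the `ℓ`-group `P`.
-/

open IntermediateField

namespace Pool.Agent.Helper1.SG

theorem exists_sylF {k W : Type} [Field k] [Field W] [Algebra k W] [IsGalois k W]
    (F0 : IntermediateField k W) {Q : Type} [Group Q] [Finite Q] (r : F0.fixingSubgroup →* Q)
    (hr : IsOpen (r.ker : Set F0.fixingSubgroup)) {ℓ : ℕ} (hℓ : ℓ.Prime) :
    ∃ (F : IntermediateField k W) (hF : F0 ≤ F),
      FiniteDimensional F0 (extendScalars hF) ∧
      ¬ ℓ ∣ (F.fixingSubgroup.subgroupOf F0.fixingSubgroup).index ∧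
      IsOpen ((F.fixingSubgroup.subgroupOf F0.fixingSubgroup : Subgroup F0.fixingSubgroup) :
        Set F0.fixingSubgroup) ∧
      ∀ γ : F0.fixingSubgroup, (γ : W ≃ₐ[k] W) ∈ F.fixingSubgroup →
        ∃ n : ℕ, r γ ^ (ℓ ^ n) = 1 := by
  have : Fact ℓ.Prime := ⟨hℓ⟩
  obtain ⟨P⟩ : Nonempty (Sylow ℓ r.range) := inferInstance
  set H : Subgroup F0.fixingSubgroup := (P : Subgroup r.range).comap r.rangeRestrict with hH
  have hopen : IsOpen (H : Set F0.fixingSubgroup) := by
    refine Subgroup.isOpen_mono (H₁ := r.ker) ?_ hr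
    intro γ hγ
    rw [hH, Subgroup.mem_comap]
    have : r.rangeRestrict γ = 1 := by
      apply Subtype.ext
      exact hγ
    rw [this]
    exact one_mem _
  obtain ⟨F, hF, hfin, hFH⟩ := exists_openF F0 H hopen
  have hsub : F.fixingSubgroup.subgroupOf F0.fixingSubgroup = H := by
    ext γ
    rw [Subgroup.mem_subgroupOf, hFH]
    constructor
    · rintro ⟨h, h'⟩
      exact h'
    · intro h
      exact ⟨γ.2, h⟩
  refine ⟨F, hF, hfin, ?_, ?_, ?_⟩
  · rw [hsub, hH, Subgroup.index_comap_of_surjective _ r.rangeRestrict_surjective]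
    exact P.not_dvd_index
  · rw [hsub]
    exact hopen
  · intro γ hγ
    obtain ⟨h, h'⟩ := (hFH _).1 hγ
    have h1 : r.rangeRestrict γ ∈ (P : Subgroup r.range) := h'
    obtain ⟨n, hn⟩ := P.isPGroup' ⟨_, h1⟩
    refine ⟨n, ?_⟩
    have h2 := congrArg (fun z : (P : Subgroup r.range) => ((z : r.range) : Q)) hn
    simpa using h2

end Pool.Agent.Helper1.SG
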