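import Pool.Agent.Helper1.SG.Defs
import Pool.Agent.Helper1.SG.Res
import Pool.Agent.Helper1.SG.SylF
import Pool.Agent.Helper1.SG.Prm
import Pool.Agent.Helper1.SG.Bad

set_option autoImplicit false

/-!
# SB-GB-09: from a bad local datum to an index with a tame pair

PROOF.  `W = kbar k Ω` is an algebraic closure of `k` (`IsAlgClosed`, algebraic, Galois: characteristic 0), so
`G = (decField j).fixingSubgroup` is compact (closed subgroup of the compact group `Gal(W/k)`).  `h` has open kernel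
(`res_open` with `M = D.E`).  `exists_bad_prime` gives `ℓ`.  `r : G → Gal(M/K)` from `exists_res` (`M` normal), open kernel
(`res_open`), `Gal(M/K)` finite.  `exists_sylF` gives `F`.  `exists_resChar` gives `p`.  `exists_tamePair_F` (Helper60/SL/T2F) gives
`σ, τ ∈ F.fixingSubgroup` and `q`.  `exists_ext` gives `σ', τ'`.  `pσ`: `r σ ^ (ℓ ^ n) = 1`, and `σ' x = r σ x` for `x ∈ M`, so
`(σ' ^ m) x = (r σ ^ m) x` (induction; `r σ x ∈ M`).  `NoLift`: suppose `θ : F.fixingSubgroup →* Ghat D` has open kernel and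
`(θ γ).g x = s γ x` for all `x ∈ D.E`.  Put `H = F.fixingSubgroup.subgroupOf G` and
`θ' = θ ∘ (Subgroup.subgroupOfEquivOfLe ..)` (or the map `γ ↦ θ ⟨γ, γ.2⟩`).  `N` = image of `θ.ker` in `G` (`comap`/`map` of subgroups): open
in `G`, because `θ.ker` is open in `F.fixingSubgroup`, whose image in `G` is open.  `(θ' γ).g = h γ` since both have at `x ∈ D.E` the value
`s γ x` (`hcomp`).  Contradiction to `exists_bad_prime`.
-/

open MvPolynomial IntermediateField NumberField IsDedekindDomain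
open scoped TensorProduct

namespace Pool.Agent.Helper1.SG

open Pool.Agent.SB Pool.Agent.Helper60.SL Pool.Agent.Helper1.SR

private theorem mkp_pow {K Ω : Type} [Field K] [Field Ω] [Algebra K Ω]
    (M : IntermediateField K Ω) (u : Ω ≃ₐ[K] Ω) (g : M ≃ₐ[K] M)
    (h : ∀ x : M, u (x : Ω) = ((g x : M) : Ω)) (m : ℕ) :
    ∀ x : M, (u ^ m) (x : Ω) = (((g ^ m) x : M) : Ω) := by
  induction m with
  | zero => intro x; rfl
  | succ m ih =>
    intro x
    rw [pow_succ, pow_succ]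
    change (u ^ m) (u (x : Ω)) = (((g ^ m) (g x) : M) : Ω)
    rw [h x, ih]

theorem exists_PDat {k : Type} [Field k] [NumberField k] {Ω : Type} [Field Ω] [Algebra k Ω]
    [IsAlgClosed Ω] {K : IntermediateField k Ω} [Algebra.IsAlgebraic K Ω] {A : Type} [Ring A]
    [Algebra K A] [IsAzumaya K A] (D : Datum K Ω A) (i0 : LDat K) (M : IntermediateField K Ω)
    [FiniteDimensional K M] [Normal K M] (hDM : D.E ≤ M) (hM : M ≤ i0.E)
    (h : (decField i0.j).fixingSubgroup →* (D.E ≃ₐ[K] D.E))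
    (hcomp : ∀ (γ : (decField i0.j).fixingSubgroup) (θ : Ω) (h1 : θ ∈ D.E) (h2 : θ ∈ i0.E),
      ((h γ ⟨θ, h1⟩ : D.E) : Ω) = ((i0.s γ ⟨θ, h2⟩ : i0.E) : Ω))
    (hno : ¬ ∃ H : (decField i0.j).fixingSubgroup →* Ghat D,
      IsOpen (H.ker : Set (decField i0.j).fixingSubgroup) ∧ ∀ γ, (H γ).g = h γ) :
    ∃ ℓ : ℕ, ℓ.Prime ∧ ℓ ∣ D.d ∧ ∃ i : PDat K ℓ, i.toLDat = i0 ∧ i.M = M ∧ NoLift D i := by
  classical
  have hac : IsAlgClosure k (kbar k Ω) := inferInstance
  have hcl : IsAlgClosed (kbar k Ω) := hac.isAlgClosed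
  have halg : Algebra.IsAlgebraic k (kbar k Ω) := hac.isAlgebraic
  have hgal : IsGalois k (kbar k Ω) := inferInstance
  have hcs : CompactSpace (decField i0.j).fixingSubgroup :=
    isCompact_iff_compactSpace.1 (InfiniteGalois.fixingSubgroup_isClosed (decField i0.j)).isCompact
  have hh : IsOpen (h.ker : Set (decField i0.j).fixingSubgroup) :=
    res_open i0.E D.E (hDM.trans hM) i0.s i0.hs.cont h hcomp
  obtain ⟨ℓ, hℓ, hℓd, hbad⟩ := exists_bad_prime D h hh hno
  obtain ⟨r, hr⟩ := exists_res i0.E M hM i0.s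
  have hro := res_open i0.E M hM i0.s i0.hs.cont r hr
  have hfinM : Finite (M ≃ₐ[K] M) := inferInstance
  obtain ⟨F, hF, hfin, hidx, hopen, hpow⟩ := exists_sylF (decField i0.j) r hro hℓ
  obtain ⟨p, hp, hpv⟩ := exists_resChar i0.v
  obtain ⟨σ, τ, htame⟩ := exists_tamePair_F i0.j hF hfin hp hpv
  obtain ⟨σ', hσ'⟩ := exists_ext i0.E (i0.sF hF σ)
  obtain ⟨τ', hτ'⟩ := exists_ext i0.E (i0.sF hF τ)
  have hpp : ∀ (γ : F.fixingSubgroup) (u : Ω ≃ₐ[K] Ω),
      (∀ θ : i0.E, u (θ : Ω) = ((i0.sF hF γ θ : i0.E) : Ω)) →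
      ∃ n : ℕ, ∀ x ∈ M, (u ^ (ℓ ^ n)) x = x := by
    intro γ u hu
    obtain ⟨n, hn⟩ := hpow (Subgroup.inclusion (IntermediateField.fixingSubgroup_le hF) γ) γ.2
    refine ⟨n, fun x hx => ?_⟩
    have h1 := mkp_pow M u (r (Subgroup.inclusion (IntermediateField.fixingSubgroup_le hF) γ))
      (fun y => by
        rw [hr _ (y : Ω) y.2 (hM y.2)]
        exact hu ⟨(y : Ω), hM y.2⟩) (ℓ ^ n) ⟨x, hx⟩
    rw [hn] at h1
    exact h1
  let i : PDat K ℓ :=
    { toLDat := i0
      M := M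
      hM := hM
      p := p
      hp := hp
      hpv := hpv
      F := F
      hF := hF
      hfin := hfin
      q := _
      σ := σ
      τ := τ
      tame := htame
      σ' := σ'
      τ' := τ'
      hσ' := hσ'
      hτ' := hτ'
      pσ := hpp σ σ' hσ'
      pτ := hpp τ τ' hτ' }
  refine ⟨ℓ, hℓ, hℓd, i, rfl, rfl, ?_⟩
  intro θ hθ hcon
  have hle : F.fixingSubgroup ≤ (decField i0.j).fixingSubgroup :=
    IntermediateField.fixingSubgroup_le hF
  let H := F.fixingSubgroup.subgroupOf (decField i0.j).fixingSubgroup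
  let e : H →* F.fixingSubgroup :=
    { toFun := fun γ => ⟨((γ : (decField i0.j).fixingSubgroup) : kbar k Ω ≃ₐ[k] kbar k Ω), γ.2⟩
      map_one' := rfl
      map_mul' := fun _ _ => rfl }
  have hecont : Continuous e :=
    Continuous.subtype_mk (continuous_subtype_val.comp continuous_subtype_val) _
  let θ' : H →* Ghat D := θ.comp e
  have hker : IsOpen (θ'.ker : Set H) := by
    have h1 : (θ'.ker : Set H) = e ⁻¹' (θ.ker : Set F.fixingSubgroup) := rfl
    rw [h1]
    exact hθ.preimage hecont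
  refine hbad H θ' hidx hopen ⟨θ'.ker.map H.subtype, ?_, ?_⟩ ?_
  · rw [Subgroup.coe_map]
    exact hopen.isOpenMap_subtype_val _ hker
  · intro γ hγ
    obtain ⟨γ', h1, h2⟩ := hγ
    have h3 : γ' = γ := Subtype.ext h2
    rw [← h3]
    exact h1
  · intro γ
    apply AlgEquiv.ext
    intro x
    apply Subtype.ext
    have hx : (x : Ω) ∈ i0.E := hM (hDM x.2)
    have h1 := hcon (e γ) x hx
    have h2 := hcomp (γ : (decField i0.j).fixingSubgroup) (x : Ω) x.2 hx
    exact h1.trans h2.symm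

end Pool.Agent.Helper1.SG
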