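import Pool.Agent.Helper1.SG.Ev

/-!
# SB-GB-11: the tame relation at a finite level

PROOF.  `exists_res i.E M0 h (i.sF i.hF)` gives `r : F.fixingSubgroup →* Gal(M0/K)`, with open kernel by `res_open`
(the stabilisers of `i.sF` are preimages of those of `i.s`, open by `KSec.cont`, under the continuous inclusion
`F.fixingSubgroup → (decField j).fixingSubgroup`).  `tame.rel` for `Q = Gal(M0/K)`, `f = r`:
`r σ * r τ * (r σ)⁻¹ = r τ ^ q`.  For `x ∈ M0`: `i.σ' x = r σ x`, `i.τ' x = r τ x` (`i.hσ'`, `i.hτ'`, `M0 ≤ i.E`) and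
`i.σ'⁻¹ x = (r σ)⁻¹ x` (`i.σ'` and `r σ` agree on the stable field `M0`, so do their inverses).
-/

set_option autoImplicit false

open MvPolynomial IntermediateField NumberField IsDedekindDomain
open scoped TensorProduct

namespace Pool.Agent.Helper1.SG

open Pool.Agent.SB Pool.Agent.Helper60.SL Pool.Agent.Helper1.SR

section

variable {k : Type} [Field k] [NumberField k] {Ω : Type} [Field Ω] [Algebra k Ω] [IsAlgClosed Ω]
  {K : IntermediateField k Ω} [Algebra.IsAlgebraic K Ω] {ℓ : ℕ}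

theorem sF_cont (i : PDat K ℓ) (θ : i.E) : IsOpen {γ : i.F.fixingSubgroup | i.sF i.hF γ θ = θ} := by
  have h1 := i.hs.cont θ
  have h2 : Continuous (Subgroup.inclusion (IntermediateField.fixingSubgroup_le i.hF)) :=
    Continuous.subtype_mk continuous_subtype_val _
  exact h1.preimage h2

theorem rel_level (i : PDat K ℓ) (M0 : IntermediateField K Ω) [FiniteDimensional K M0]
    [Normal K M0] (h : M0 ≤ i.E) (hp : ¬ i.p ∣ Nat.card (M0 ≃ₐ[K] M0)) :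
    ∀ x ∈ M0, (i.σ' * i.τ' * i.σ'⁻¹) x = (i.τ' ^ i.q) x := by
  obtain ⟨r, hr⟩ := exists_res i.E M0 h (i.sF i.hF)
  have hopen : IsOpen (r.ker : Set i.F.fixingSubgroup) :=
    res_open i.E M0 h (i.sF i.hF) (sF_cont i) r hr
  have hrel := i.tame.rel (M0 ≃ₐ[K] M0) hp r hopen
  -- values of the extensions on `M0`
  have hσ : ∀ x : M0, i.σ' (x : Ω) = ((r i.σ x : M0) : Ω) := by
    intro x
    have h1 := hr i.σ (x : Ω) x.2 (h x.2)
    have h2 := i.hσ' ⟨(x : Ω), h x.2⟩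
    exact h2.trans h1.symm
  have hτ : ∀ x : M0, i.τ' (x : Ω) = ((r i.τ x : M0) : Ω) := by
    intro x
    have h1 := hr i.τ (x : Ω) x.2 (h x.2)
    have h2 := i.hτ' ⟨(x : Ω), h x.2⟩
    exact h2.trans h1.symm
  have hσi : ∀ x : M0, (i.σ'⁻¹) (x : Ω) = (((r i.σ)⁻¹ x : M0) : Ω) := by
    intro x
    have h1 := hσ ((r i.σ)⁻¹ x)
    have h2 : (r i.σ) ((r i.σ)⁻¹ x) = x := by
      rw [← AlgEquiv.mul_apply, mul_inv_cancel, AlgEquiv.one_apply]
    rw [h2] at h1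
    rw [← h1, ← AlgEquiv.mul_apply, inv_mul_cancel, AlgEquiv.one_apply]
  have hpow : ∀ (m : ℕ) (x : M0), (i.τ' ^ m) (x : Ω) = (((r i.τ ^ m) x : M0) : Ω) := by
    intro m
    induction m with
    | zero => intro x; rfl
    | succ m ih =>
      intro x
      rw [pow_succ, AlgEquiv.mul_apply, hτ x, ih, pow_succ, AlgEquiv.mul_apply]
  intro x hx
  have h3 := congrArg (fun g : M0 ≃ₐ[K] M0 => ((g ⟨x, hx⟩ : M0) : Ω)) hrel
  change (((r i.σ * r i.τ * (r i.σ)⁻¹) ⟨x, hx⟩ : M0) : Ω) = (((r i.τ ^ i.q) ⟨x, hx⟩ : M0) : Ω) at h3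
  rw [AlgEquiv.mul_apply, AlgEquiv.mul_apply] at h3
  have h4 := hσi ⟨x, hx⟩
  have h5 := hτ ((r i.σ)⁻¹ ⟨x, hx⟩)
  have h6 := hσ (r i.τ ((r i.σ)⁻¹ ⟨x, hx⟩))
  have h7 := hpow i.q ⟨x, hx⟩
  rw [AlgEquiv.mul_apply, AlgEquiv.mul_apply]
  change i.σ' (i.τ' (i.σ'⁻¹ ((⟨x, hx⟩ : M0) : Ω))) = (i.τ' ^ i.q) ((⟨x, hx⟩ : M0) : Ω)
  rw [h4, h5, h6, h7]
  exact h3

end

end Pool.Agent.Helper1.SG
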